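import Pool.Agent.Helper60.PT3.St
import Pool.Agent.Helper60.PT.M_P1
import Pool.Agent.Helper60.GP.M_S7

/-! Project PT3 (MP_b454d1_nt), module T10 -/

set_option autoImplicit false

namespace Pool.Agent.Helper60.PT3

open Finset ArithmeticFunction
open Pool.Agent.Helper60.GP (PP VV rg IsB JJ II Err an T0 Tq SS)
open Pool.Agent.Helper15.AB (Th ee)
open Pool.Agent.Helper23.GK (cR)
open Pool.Agent.Helper60.PT (PO ro IsWo MN UpO LoO VU VL IsXi wn gg hh Sr PY cc)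

namespace PTP8

/-- the size of the exceptional sets -/
theorem card_ev (η' η : ℝ) (h : η' < η) : ∃ Y₀ : ℝ, ∀ Y : ℝ, Y₀ ≤ Y →
    2 * Y ^ η' ≤ Y ^ η := by
  have h1 : Filter.Tendsto (fun Y : ℝ => Y ^ (η - η')) Filter.atTop Filter.atTop :=
    tendsto_rpow_atTop (by linarith)
  obtain ⟨Y₀, hY₀⟩ := Filter.eventually_atTop.1
    ((h1.eventually_ge_atTop 2).and (Filter.eventually_gt_atTop 0))
  refine ⟨Y₀, fun Y hY => ?_⟩
  obtain ⟨h2, h3⟩ := hY₀ Y hY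
  have e1 : Y ^ η = Y ^ (η - η') * Y ^ η' := by
    rw [← Real.rpow_add h3]
    congr 1
    ring
  rw [e1]
  exact mul_le_mul_of_nonneg_right h2 (Real.rpow_nonneg h3.le _)

theorem err_ev (δ : ℝ) (hδ : 0 < δ) : ∃ N₀ : ℕ, ∀ N : ℕ, N₀ ≤ N →
    (N : ℝ) ^ ((49 : ℝ) / 100) * Real.log N ≤ δ * √N := by
  have hev : ∀ᶠ N : ℕ in Filter.atTop, (N : ℝ) ^ ((49 : ℝ) / 100) * Real.log N ≤ δ * √N := by
    have e3 := (isLittleO_log_rpow_atTop (r := (1 / 100 : ℝ)) (by norm_num)).bound (c := δ) hδ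
    have e4 := tendsto_natCast_atTop_atTop (R := ℝ) |>.eventually e3
    filter_upwards [e4, Filter.eventually_gt_atTop 0] with N hN hN0
    have hN0' : (0 : ℝ) < N := by exact_mod_cast hN0
    rw [Real.norm_eq_abs, Real.norm_eq_abs, abs_of_nonneg (Real.rpow_nonneg hN0'.le _)] at hN
    have e5 : √(N : ℝ) = (N : ℝ) ^ ((49 : ℝ) / 100) * (N : ℝ) ^ (1 / 100 : ℝ) := by
      rw [← Real.rpow_add hN0', Real.sqrt_eq_rpow]
      congr 1
      norm_num
    rw [e5]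
    calc (N : ℝ) ^ ((49 : ℝ) / 100) * Real.log N ≤
        (N : ℝ) ^ ((49 : ℝ) / 100) * (δ * (N : ℝ) ^ (1 / 100 : ℝ)) :=
          mul_le_mul_of_nonneg_left ((le_abs_self _).trans hN) (Real.rpow_nonneg hN0'.le _)
      _ = _ := by ring
  exact Filter.eventually_atTop.1 hev

theorem kap {α β : ℝ} (hα : 0 < α) (hαβ : α < β) : ∃ κ : ℝ, 0 < κ ∧ κ ≤ 1 ∧
    α * √(1 + κ) < β := by
  have hq : 1 < β / α := by rw [one_lt_div hα]; exact hαβ
  have hq2 : 1 < (β / α) ^ 2 := by nlinarith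
  refine ⟨min 1 (((β / α) ^ 2 - 1) / 2), ?_, min_le_left _ _, ?_⟩
  · exact lt_min one_pos (by linarith)
  · have h1 : 1 + min 1 (((β / α) ^ 2 - 1) / 2) < (β / α) ^ 2 := by
      have := min_le_right 1 (((β / α) ^ 2 - 1) / 2)
      linarith
    have h2 : √(1 + min 1 (((β / α) ^ 2 - 1) / 2)) < β / α := by
      rw [Real.sqrt_lt' (by linarith)]
      exact h1
    calc α * √(1 + min 1 (((β / α) ^ 2 - 1) / 2)) < α * (β / α) :=
        mul_lt_mul_of_pos_left h2 hα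
      _ = β := by field_simp

theorem gen (h2 : StLow) (h3 : StSec) (h5 : StRA) (h6 : Pool.Agent.Helper60.GP.StVlow)
    (h7 : Pool.Agent.Helper60.GP.StBump) (r lv v : ℕ) (cs : List (ℕ × ℕ × ℕ × ℕ))
    (s c η₀ lam Cs g : ℝ) (hVL : VL s c) (hs : 0 < s) (hus : 704 / 10000 * s ≤ (lv : ℝ) / 10 ^ 4)
    (hη₁ : 0 ≤ η₀) (hlv : (lv : ℝ) / 10 ^ 4 < 1 / 2)
    (hη₂ : 2 * ((lv : ℝ) / 10 ^ 4) - 1 / 2 ≤ η₀)
    (hv : 704 / 10000 < (v : ℝ) / 10 ^ 4) (hlam : 0 < lam)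
    (hr : 1 / lam + 1 / ((v : ℝ) / 10 ^ 4) < r + 1) (hCh : Ch lv v 704 cs)
    (hVU : ∀ e ∈ cs, VU ((e.2.2.1 : ℝ) / 32) ((e.2.2.2 : ℝ) / 10 ^ 8))
    (hsum : (cs.map (cc v)).sum ≤ Cs) (hg : 0 < g) (hgc : g ≤ c - lam * Cs) : Blk r η₀ := by
  intro α β hα hαβ η hη
  obtain ⟨κ, hκ, hκ1, hκβ⟩ := kap hα hαβ
  set a : ℝ := α * √(1 + κ) with ha_def
  have ha : 0 < a := by
    have : 0 < √(1 + κ) := Real.sqrt_pos.2 (by linarith)
    positivity
  have hβa : 1 < β / a := by rw [one_lt_div ha]; exact hκβ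
  obtain ⟨ω, hω, hJ, hsupp⟩ := h7 (Real.log (β / a)) (Real.log_pos hβa)
  set J : ℝ := JJ ω with hJd
  set η' : ℝ := (η + η₀) / 2 with hη'
  have g1 : Sp ((lv : ℝ) / 10 ^ 4) η' := ⟨hlv, by rw [hη']; linarith⟩
  have g2 : 2 * ((lv : ℝ) / 10 ^ 4) - 1 / 2 < η' := by rw [hη']; linarith
  have g3 : η' < η := by rw [hη']; linarith
  set ε : ℝ := g / (4 * (1 + lam)) with hε_def
  have hε : 0 < ε := by positivity
  have hε2 : (1 + lam) * ε = g / 4 := by
    rw [hε_def]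
    field_simp
  obtain ⟨Y₁, hY₁⟩ := h2 s c hVL ω hω hJ a (704 / 10000) ((lv : ℝ) / 10 ^ 4) η' ha (by norm_num) hs
    hus g1 g2 ε hε
  obtain ⟨Y₂, hY₂⟩ := h3 lv v cs 704 le_rfl hCh hVU ω hω hJ a η' ha g1 g2 ε hε
  obtain ⟨Y₃, hY₃⟩ := h5 r ((v : ℝ) / 10 ^ 4) lam hv hlam hr ω hω α β a κ hα hκ hκ1 rfl hκβ hsupp
  obtain ⟨c₁, hc₁, N₄, hN₄⟩ := h6 (704 / 10000) (by norm_num)
  obtain ⟨Y₅, hY₅⟩ := card_ev η' η g3
  set δ : ℝ := g / 8 * (c₁ * J * a) with hδ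
  have hδ0 : 0 < δ := by positivity
  obtain ⟨N₆, hN₆⟩ := err_ev δ hδ0
  refine ⟨κ, g / 4 * (c₁ * J * a), max (max Y₁ Y₂) (max (max Y₃ Y₅) (max (max N₄ N₆) 2)), hκ, hκ1,
    by positivity, fun Y hY => ?_⟩
  have d1 : Y₁ ≤ Y := ((le_max_left _ _).trans (le_max_left _ _)).trans hY
  have d2 : Y₂ ≤ Y := ((le_max_right _ _).trans (le_max_left _ _)).trans hY
  have d3 : Y₃ ≤ Y :=
    (((le_max_left _ _).trans (le_max_left _ _)).trans (le_max_right _ _)).trans hY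
  have d5 : Y₅ ≤ Y :=
    (((le_max_right _ _).trans (le_max_left _ _)).trans (le_max_right _ _)).trans hY
  have d4 : (N₄ : ℝ) ≤ Y := ((((le_max_left _ _).trans (le_max_left _ _)).trans
    (le_max_right _ _)).trans (le_max_right _ _)).trans hY
  have d6 : (N₆ : ℝ) ≤ Y := ((((le_max_right _ _).trans (le_max_left _ _)).trans
    (le_max_right _ _)).trans (le_max_right _ _)).trans hY
  have d7 : 2 ≤ Y := (((le_max_right _ _).trans (le_max_right _ _)).trans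
    (le_max_right _ _)).trans hY
  have hY0 : 0 < Y := by linarith
  obtain ⟨E₁, hE₁, hE₁'⟩ := hY₁ Y d1
  obtain ⟨E₂, hE₂, hE₂'⟩ := hY₂ Y d2
  refine ⟨E₁ ∪ E₂, ?_, ?_⟩
  · have : ((E₁ ∪ E₂).card : ℝ) ≤ E₁.card + E₂.card := by exact_mod_cast card_union_le _ _
    have := hY₅ Y d5
    linarith
  intro N hNe hN1 hN2 hNE
  rw [mem_union, not_or] at hNE
  have hN2' : (N : ℝ) ≤ 2 * Y := hN2.trans (mul_le_mul_of_nonneg_right (by linarith) hY0.le)
  have hNr : (2 : ℝ) ≤ N := d7.trans hN1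
  have hN0 : (0 : ℝ) < N := by linarith
  have k1 := hE₁' N hNe hN1 hN2' hNE.1
  have k2 := hE₂' N hNe hN1 hN2' hNE.2
  have k3 := hY₃ Y d3 N hNe hN1 hN2
  have k4 := hN₄ N (by exact_mod_cast d4.trans hN1) hNe
  have k5 := hN₆ N (by exact_mod_cast d6.trans hN1)
  have hSS := Pool.Agent.Helper60.GP.GPS7.SS_ge N
  have hlog : 0 < Real.log N := Real.log_pos (by linarith)
  have hsN : 0 < √(N : ℝ) := Real.sqrt_pos.2 hN0
  have hsY : 0 < √Y := Real.sqrt_pos.2 hY0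
  have e1 : ((704 : ℕ) : ℝ) / 10 ^ 4 = 704 / 10000 := by norm_num
  rw [e1] at k2
  have e2 : √(N : ℝ) ≤ 2 * √Y := by
    rw [Real.sqrt_le_left (by positivity), mul_pow, Real.sq_sqrt hY0.le]
    linarith
  have e3 : VV N ((N : ℝ) ^ ((704 : ℝ) / 10000)) ≤ VV N (Y ^ ((704 : ℝ) / 10000)) :=
    Pool.Agent.Helper60.PT.PTP1.VV_anti hNe (Real.rpow_le_rpow hY0.le hN1 (by norm_num))
  set V : ℝ := VV N (Y ^ ((704 : ℝ) / 10000)) with hV_def
  set G : ℝ := ((Good r (1 / 15) α β N).card : ℝ) with hG_def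
  set T : ℝ := T0 ω (a * √Y) N (Y ^ ((704 : ℝ) / 10000)) with hT_def
  set S : ℝ := ∑ q ∈ PY Y (704 / 10000) ((v : ℝ) / 10 ^ 4),
      (1 - Real.log q / ((v : ℝ) / 10 ^ 4 * Real.log Y)) *
        Tq ω (a * √Y) N (Y ^ ((704 : ℝ) / 10000)) q with hS_def
  have hV0 : c₁ * SS N / Real.log N ≤ V := k4.trans e3
  have k6 : c₁ * J * a * (SS N * √N) / Real.log N ≤ 2 * (V * (J * (a * √Y))) := by
    have f1 := mul_le_mul_of_nonneg_right hV0 (by positivity : 0 ≤ J * (a * √N))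
    have f2 : 0 ≤ V := le_trans (by positivity) hV0
    have f3 : V * (J * (a * √N)) ≤ V * (J * (a * (2 * √Y))) :=
      mul_le_mul_of_nonneg_left (mul_le_mul_of_nonneg_left
        (mul_le_mul_of_nonneg_left e2 ha.le) hJ.le) f2
    calc c₁ * J * a * (SS N * √N) / Real.log N = c₁ * SS N / Real.log N * (J * (a * √N)) := by ring
      _ ≤ V * (J * (a * √N)) := f1
      _ ≤ V * (J * (a * (2 * √Y))) := f3
      _ = _ := by ring
  have hW : 0 ≤ V * (J * (a * √Y)) := by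
    have : 0 ≤ c₁ * J * a * (SS N * √N) / Real.log N := by positivity
    linarith
  have k7 : 3 / 4 * g * (V * (J * (a * √Y))) ≤ G * Real.log N + Y ^ ((49 : ℝ) / 100) := by
    have f1 : lam * S ≤ lam * ((Cs + ε) * (V * (J * (a * √Y)))) := by
      refine mul_le_mul_of_nonneg_left (k2.trans ?_) hlam.le
      exact mul_le_mul_of_nonneg_right (by linarith) hW
    have f2 : (c - ε) * V * (J * (a * √Y)) = (c - ε) * (V * (J * (a * √Y))) := by ring
    rw [f2] at k1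
    have f3 : 3 / 4 * g * (V * (J * (a * √Y))) ≤
        (c - ε - lam * (Cs + ε)) * (V * (J * (a * √Y))) := by
      refine mul_le_mul_of_nonneg_right ?_ hW
      nlinarith
    have f4 : (c - ε - lam * (Cs + ε)) * (V * (J * (a * √Y))) =
        (c - ε) * (V * (J * (a * √Y))) - lam * ((Cs + ε) * (V * (J * (a * √Y)))) := by ring
    linarith
  have k8 : Y ^ ((49 : ℝ) / 100) ≤ g / 8 * (c₁ * J * a * (SS N * √N) / Real.log N) := by
    refine (Real.rpow_le_rpow hY0.le hN1 (by norm_num)).trans ?_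
    rw [← mul_div_assoc, le_div_iff₀ hlog]
    refine k5.trans ?_
    rw [hδ]
    have : √(N : ℝ) ≤ SS N * √N := by
      calc √(N : ℝ) = 1 * √N := by ring
        _ ≤ SS N * √N := mul_le_mul_of_nonneg_right hSS hsN.le
    calc g / 8 * (c₁ * J * a) * √(N : ℝ) ≤ g / 8 * (c₁ * J * a) * (SS N * √N) :=
          mul_le_mul_of_nonneg_left this (by positivity)
      _ = _ := by ring
  have k9 : g / 4 * (c₁ * J * a * (SS N * √N) / Real.log N) ≤ G * Real.log N := by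
    have := mul_le_mul_of_nonneg_left k6 (by positivity : 0 ≤ 3 / 8 * g)
    have f5 : 3 / 8 * g * (2 * (V * (J * (a * √Y)))) = 3 / 4 * g * (V * (J * (a * √Y))) := by ring
    rw [f5] at this
    have f6 : 3 / 8 * g * (c₁ * J * a * (SS N * √N) / Real.log N) =
        g / 4 * (c₁ * J * a * (SS N * √N) / Real.log N) +
          g / 8 * (c₁ * J * a * (SS N * √N) / Real.log N) := by ring
    linarith
  rw [div_le_iff₀ (by positivity)]
  have k10 := mul_le_mul_of_nonneg_right k9 hlog.le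
  have e4 : g / 4 * (c₁ * J * a * (SS N * √N) / Real.log N) * Real.log N =
      g / 4 * (c₁ * J * a) * SS N * √N := by
    field_simp
  rw [e4] at k10
  calc g / 4 * (c₁ * J * a) * SS N * √N ≤ G * Real.log N * Real.log N := k10
    _ = G * Real.log N ^ 2 := by ring

end PTP8

theorem hBlk (h1 : StTab) (h1' : Pool.Agent.Helper60.PT.StTab) (h2 : StLow) (h3 : StSec)
    (h4 : StNum) (h5 : StRA) (h6 : Pool.Agent.Helper60.GP.StVlow)
    (h7 : Pool.Agent.Helper60.GP.StBump) : StBlk := by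
  obtain ⟨_, t2, _⟩ := h1'
  obtain ⟨n1, n3⟩ := h4
  exact PTP8.gen h2 h3 h5 h6 h7 3 3649 3539 cells (157 / 32) (9961 / 10000) _ (852 / 1000)
      (1130 / 1000) (3 / 100) t2 (by norm_num) (by norm_num) (by norm_num) (by norm_num)
      (by norm_num) (by norm_num) (by norm_num) (by norm_num) n1 h1
      n3 (by norm_num) (by norm_num)

end Pool.Agent.Helper60.PT3
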