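import Pool.Agent.Helper60.PT3.St

/-! Project PT3 (MP_b454d1_nt), module T11 -/

set_option autoImplicit false

namespace Pool.Agent.Helper60.PT3

open Finset ArithmeticFunction
open Pool.Agent.Helper60.GP (PP VV rg IsB JJ II Err an T0 Tq SS)
open Pool.Agent.Helper15.AB (Th ee)
open Pool.Agent.Helper23.GK (cR)
open Pool.Agent.Helper60.PT (PO ro IsWo MN UpO LoO VU VL IsXi wn gg hh Sr PY cc)

namespace PTP9

/-- a constant plus a multiple of the logarithm is eventually below a power -/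
theorem ev_log (a b δ : ℝ) (hδ : 0 < δ) :
    ∃ X₀ : ℕ, ∀ X : ℕ, X₀ ≤ X → a + b * Real.log X ≤ (X : ℝ) ^ δ := by
  have h1 : (fun x : ℝ => a + b * Real.log x) =o[Filter.atTop] fun x : ℝ => x ^ δ := by
    refine Asymptotics.IsLittleO.add ?_ ?_
    · rw [Asymptotics.isLittleO_const_left]
      right
      exact tendsto_norm_atTop_atTop.comp (tendsto_rpow_atTop hδ)
    · exact (isLittleO_log_rpow_atTop hδ).const_mul_left b
  have h2 := h1.bound (show (0 : ℝ) < 1 by norm_num)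
  have h3 := (tendsto_natCast_atTop_atTop (R := ℝ)).eventually h2
  rw [Filter.eventually_atTop] at h3
  obtain ⟨X₀, hX⟩ := h3
  refine ⟨X₀, fun X hXX => ?_⟩
  have h4 := hX X hXX
  rw [one_mul, Real.norm_of_nonneg (Real.rpow_nonneg (Nat.cast_nonneg X) δ)] at h4
  exact le_trans (Real.le_norm_self _) h4

end PTP9

theorem hCov : StCov := by
  classical
  intro r η₀ hη₀ hB α β hα hαβ η hη
  obtain ⟨κ, c, Y₁, hκ, hκ1, hc, hY⟩ := hB α β hα hαβ ((η + η₀) / 2) (by linarith)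
  refine ⟨c, hc, ?_⟩
  choose! E hE using hY
  set η' : ℝ := (η + η₀) / 2 with hη'
  have hη'0 : 0 ≤ η' := by rw [hη']; linarith
  have hδ : 0 < η - η' := by rw [hη']; linarith
  set Y₀ : ℝ := max Y₁ 1 with hY₀
  have hY₀1 : 1 ≤ Y₀ := le_max_right _ _
  have hY₀Y : Y₁ ≤ Y₀ := le_max_left _ _
  have hb : (1 : ℝ) < 1 + κ := by linarith
  have hℓ : 0 < Real.log (1 + κ) := Real.log_pos hb
  obtain ⟨X₀, hX₀⟩ := PTP9.ev_log ((⌈2 * Y₀⌉₊ : ℝ) + 1) (1 / Real.log (1 + κ)) (η - η') hδ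
  refine ⟨max X₀ 1, fun X hX => ?_⟩
  have hX0 : X₀ ≤ X := le_trans (le_max_left _ _) hX
  have hX1 : 1 ≤ X := le_trans (le_max_right _ _) hX
  have hX1' : (1 : ℝ) ≤ (X : ℝ) := by exact_mod_cast hX1
  set K : ℕ := ⌊Real.log X / Real.log (1 + κ)⌋₊ + 1 with hK
  have hsub : Bad r (1 / 15) α β c X ⊆ range ⌈2 * Y₀⌉₊ ∪
      ((range K).filter (fun k => Y₀ ≤ (1 + κ) ^ k ∧ (1 + κ) ^ k ≤ (X : ℝ))).biUnion
        (fun k => E ((1 + κ) ^ k)) := by
    intro N hN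
    unfold Bad at hN
    rw [mem_filter, mem_Icc] at hN
    obtain ⟨⟨hN1, hNX⟩, hev, hbad⟩ := hN
    have hN1' : (1 : ℝ) ≤ (N : ℝ) := by exact_mod_cast hN1
    have hNX' : (N : ℝ) ≤ (X : ℝ) := by exact_mod_cast hNX
    obtain ⟨k, hk1, hk2⟩ := exists_nat_pow_near hN1' hb
    rw [mem_union]
    by_cases hkY : Y₀ ≤ (1 + κ) ^ k
    · right
      rw [mem_biUnion]
      have hkX : (1 + κ) ^ k ≤ (X : ℝ) := le_trans hk1 hNX'
      refine ⟨k, ?_, ?_⟩
      · rw [mem_filter, mem_range]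
        refine ⟨?_, hkY, hkX⟩
        rw [hK, Nat.lt_succ_iff]
        apply Nat.le_floor
        rw [le_div_iff₀ hℓ, ← Real.log_pow]
        exact Real.log_le_log (by positivity) hkX
      · by_contra hNE
        have h1 := (hE ((1 + κ) ^ k) (le_trans hY₀Y hkY)).2 N hev hk1 (by
          have : (1 + κ) ^ (k + 1) = (1 + κ) * (1 + κ) ^ k := by ring
          rw [← this]
          exact hk2.le) hNE
        exact absurd hbad (not_lt.2 h1)
    · left
      rw [mem_range, Nat.lt_ceil]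
      have h2 : (1 + κ) ^ (k + 1) = (1 + κ) * (1 + κ) ^ k := by ring
      have h3 : (1 + κ) ^ k < Y₀ := not_le.1 hkY
      have h4 : (1 + κ) * (1 + κ) ^ k ≤ 2 * Y₀ :=
        mul_le_mul (by linarith) h3.le (by positivity) (by norm_num)
      linarith
  have hcard : ((Bad r (1 / 15) α β c X).card : ℝ) ≤ (⌈2 * Y₀⌉₊ : ℝ) + K * (X : ℝ) ^ η' := by
    have h1 := card_le_card hsub
    have h2 := h1.trans (card_union_le _ _)
    rw [card_range] at h2
    have h3 : ((((range K).filter (fun k => Y₀ ≤ (1 + κ) ^ k ∧ (1 + κ) ^ k ≤ (X : ℝ))).biUnion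
        (fun k => E ((1 + κ) ^ k))).card : ℝ) ≤ K * (X : ℝ) ^ η' := by
      have h4 : ((((range K).filter (fun k => Y₀ ≤ (1 + κ) ^ k ∧
          (1 + κ) ^ k ≤ (X : ℝ))).biUnion (fun k => E ((1 + κ) ^ k))).card : ℝ) ≤
          ∑ k ∈ (range K).filter (fun k => Y₀ ≤ (1 + κ) ^ k ∧ (1 + κ) ^ k ≤ (X : ℝ)),
            ((E ((1 + κ) ^ k)).card : ℝ) := by
        exact_mod_cast card_biUnion_le
      refine h4.trans ?_
      calc ∑ k ∈ (range K).filter (fun k => Y₀ ≤ (1 + κ) ^ k ∧ (1 + κ) ^ k ≤ (X : ℝ)),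
            ((E ((1 + κ) ^ k)).card : ℝ)
          ≤ ∑ k ∈ (range K).filter (fun k => Y₀ ≤ (1 + κ) ^ k ∧ (1 + κ) ^ k ≤ (X : ℝ)),
            (X : ℝ) ^ η' := by
            refine sum_le_sum fun k hk => ?_
            rw [mem_filter] at hk
            refine (hE ((1 + κ) ^ k) (le_trans hY₀Y hk.2.1)).1.trans ?_
            exact Real.rpow_le_rpow (by positivity) hk.2.2 hη'0
        _ ≤ ∑ k ∈ range K, (X : ℝ) ^ η' :=
            sum_le_sum_of_subset_of_nonneg (filter_subset _ _) (fun _ _ _ => by positivity)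
        _ = K * (X : ℝ) ^ η' := by rw [sum_const, card_range, nsmul_eq_mul]
    have h5 : ((Bad r (1 / 15) α β c X).card : ℝ) ≤ (⌈2 * Y₀⌉₊ : ℝ) +
        ((((range K).filter (fun k => Y₀ ≤ (1 + κ) ^ k ∧ (1 + κ) ^ k ≤ (X : ℝ))).biUnion
        (fun k => E ((1 + κ) ^ k))).card : ℝ) := by
      exact_mod_cast h2
    linarith
  have hKle : (K : ℝ) ≤ 1 + 1 / Real.log (1 + κ) * Real.log X := by
    rw [hK]
    push_cast
    have h6 : (⌊Real.log X / Real.log (1 + κ)⌋₊ : ℝ) ≤ Real.log X / Real.log (1 + κ) :=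
      Nat.floor_le (div_nonneg (Real.log_nonneg hX1') hℓ.le)
    have h7 : Real.log X / Real.log (1 + κ) = 1 / Real.log (1 + κ) * Real.log X := by ring
    linarith
  have hpow1 : 1 ≤ (X : ℝ) ^ η' := Real.one_le_rpow hX1' hη'0
  have hfin := hX₀ X hX0
  calc ((Bad r (1 / 15) α β c X).card : ℝ) ≤ (⌈2 * Y₀⌉₊ : ℝ) + K * (X : ℝ) ^ η' := hcard
    _ ≤ (⌈2 * Y₀⌉₊ : ℝ) * (X : ℝ) ^ η' + K * (X : ℝ) ^ η' := by
        have : (⌈2 * Y₀⌉₊ : ℝ) * 1 ≤ (⌈2 * Y₀⌉₊ : ℝ) * (X : ℝ) ^ η' :=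
          mul_le_mul_of_nonneg_left hpow1 (Nat.cast_nonneg _)
        linarith
    _ = ((⌈2 * Y₀⌉₊ : ℝ) + K) * (X : ℝ) ^ η' := by ring
    _ ≤ (X : ℝ) ^ (η - η') * (X : ℝ) ^ η' := by
        refine mul_le_mul_of_nonneg_right ?_ (by positivity)
        linarith
    _ = (X : ℝ) ^ η := by
        rw [← Real.rpow_add (by linarith)]
        congr 1
        ring

end Pool.Agent.Helper60.PT3
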