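import Pool.Agent.Helper60.PT3.St
import Pool.Agent.Helper60.PT.M_L7

/-! Project PT3 (MP_b454d1_nt), module T2 -/

set_option autoImplicit false

namespace Pool.Agent.Helper60.PT3

open Finset ArithmeticFunction
open Pool.Agent.Helper60.GP (PP VV rg IsB JJ II Err an T0 Tq SS)
open Pool.Agent.Helper15.AB (Th ee)
open Pool.Agent.Helper23.GK (cR)
open Pool.Agent.Helper60.PT (PO ro IsWo MN UpO LoO VU VL IsXi wn gg hh Sr PY cc)
open Pool.Agent.Helper60.PT (ev_L7 evs_L7)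

namespace T2

/-- the size of the factors which do not depend on the set -/
theorem size {a lev δ' Y : ℝ} (ha : 0 < a) (hlev : 0 < lev) (hδ' : 0 < δ')
    (hY : 1 ≤ Y) (hL : 1 ≤ Real.log Y) (hx : 1 ≤ a * √Y) (haY : a ≤ √Y) :
    (1 + Real.log (Y ^ lev)) ^ 3 * (a * √Y / ((a * √Y) ^ (1 / 2 - δ')) ^ 2 + 1) *
      (a * √Y * (1 + Real.log (a * √Y)) ^ 2) ≤
    (8 * (1 + lev) ^ 3 * a ^ (2 * δ') * a) * (Y ^ (δ' + 1 / 2) * Real.log Y ^ 5) := by
  have hY0 : 0 < Y := by linarith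
  have hx0 : 0 < a * √Y := by linarith
  set x : ℝ := a * √Y with hxdef
  set L : ℝ := Real.log Y with hLdef
  have b2 : 1 + Real.log (Y ^ lev) ≤ (1 + lev) * L := by
    rw [Real.log_rpow hY0]
    nlinarith
  have b2' : 0 ≤ 1 + Real.log (Y ^ lev) := by
    rw [Real.log_rpow hY0]
    have : 0 ≤ lev * Real.log Y := mul_nonneg hlev.le (by linarith)
    linarith
  have b3 : x / (x ^ (1 / 2 - δ')) ^ 2 + 1 ≤ 2 * (a ^ (2 * δ') * Y ^ δ') := by
    have e1 : x / (x ^ (1 / 2 - δ')) ^ 2 = x ^ (2 * δ') := by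
      rw [← Real.rpow_natCast, ← Real.rpow_mul hx0.le]
      have e : (1 / 2 - δ') * ((2 : ℕ) : ℝ) = 1 - 2 * δ' := by
        push_cast
        ring
      rw [e, Real.rpow_sub hx0, Real.rpow_one]
      field_simp
    have e2 : x ^ (2 * δ') = a ^ (2 * δ') * Y ^ δ' := by
      rw [hxdef, Real.mul_rpow ha.le (Real.sqrt_nonneg _), Real.sqrt_eq_rpow,
        ← Real.rpow_mul hY0.le]
      congr 2
      ring
    have e3 : 1 ≤ x ^ (2 * δ') := Real.one_le_rpow hx (by positivity)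
    rw [e1]
    rw [← e2]
    linarith
  have b4 : 1 + Real.log x ≤ 2 * L := by
    have : x ≤ Y := by
      calc x = a * √Y := hxdef
        _ ≤ √Y * √Y := mul_le_mul_of_nonneg_right haY (Real.sqrt_nonneg _)
        _ = Y := Real.mul_self_sqrt hY0.le
    have := Real.log_le_log hx0 this
    linarith
  have b4' : 0 ≤ 1 + Real.log x := by
    have := Real.log_nonneg hx
    linarith
  have b5 : x = a * Y ^ ((1 : ℝ) / 2) := by
    rw [hxdef, Real.sqrt_eq_rpow]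
  have b6 : x * (1 + Real.log x) ^ 2 ≤ a * Y ^ ((1 : ℝ) / 2) * (2 * L) ^ 2 := by
    rw [← b5]
    exact mul_le_mul_of_nonneg_left (pow_le_pow_left₀ b4' b4 2) hx0.le
  have b7 : Y ^ (δ' + 1 / 2) = Y ^ δ' * Y ^ ((1 : ℝ) / 2) := by
    rw [Real.rpow_add hY0]
  have c3 : (1 + Real.log (Y ^ lev)) ^ 3 * (x / (x ^ (1 / 2 - δ')) ^ 2 + 1) ≤
      ((1 + lev) * L) ^ 3 * (2 * (a ^ (2 * δ') * Y ^ δ')) :=
    mul_le_mul (pow_le_pow_left₀ b2' b2 3) b3 (by positivity) (by positivity)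
  have c4 : (1 + Real.log (Y ^ lev)) ^ 3 *
      (x / (x ^ (1 / 2 - δ')) ^ 2 + 1) * (x * (1 + Real.log x) ^ 2) ≤
      ((1 + lev) * L) ^ 3 * (2 * (a ^ (2 * δ') * Y ^ δ')) *
        (a * Y ^ ((1 : ℝ) / 2) * (2 * L) ^ 2) :=
    mul_le_mul c3 b6 (by positivity) (by positivity)
  refine c4.trans (le_of_eq ?_)
  rw [b7]
  ring

/-- solution of the inequality for the cardinality -/
theorem solve {c Y P Q T K : ℝ} (hc : 0 ≤ c) (hY : 0 < Y) (hK : 0 ≤ K) (hP : 0 ≤ P)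
    (h : c ^ 2 * Y ≤ K * (P * c + Q * c ^ 2 * T)) (h2 : 2 * (K * (Q * T)) ≤ Y) :
    c ≤ 2 * K * P / Y := by
  rcases hc.eq_or_lt with h0 | h0
  · rw [← h0]
    positivity
  · rw [le_div_iff₀ hY]
    have h3 : K * (Q * c ^ 2 * T) ≤ c ^ 2 * Y / 2 := by
      have := mul_le_mul_of_nonneg_right h2 (sq_nonneg c)
      nlinarith
    have h4 : c ^ 2 * Y ≤ 2 * (K * (P * c)) := by nlinarith
    have h5 : c * (c * Y) ≤ c * (2 * K * P) := by nlinarith
    exact le_of_mul_le_mul_left h5 h0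

/-- the sum with signs -/
theorem signs (E : Finset ℕ) (f : ℕ → ℝ) (t : ℝ) (ht : 0 < t) (h : ∀ N ∈ E, t < |f N|) :
    ((E.card : ℝ) * t) ^ 2 ≤ (∑ N ∈ E, (if 0 ≤ f N then 1 else -1) * f N) ^ 2 := by
  have h1 : (E.card : ℝ) * t ≤ ∑ N ∈ E, (if 0 ≤ f N then 1 else -1) * f N := by
    rw [← nsmul_eq_mul, ← sum_const]
    refine sum_le_sum fun N hN => ?_
    have h2 := h N hN
    split_ifs with h3
    · rw [abs_of_nonneg h3] at h2
      linarith
    · rw [abs_of_neg (not_le.1 h3)] at h2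
      linarith
  exact pow_le_pow_left₀ (by positivity) h1 2

end T2

open T2 in
theorem hExc (h1 : StMinS) (h2 : Pool.Agent.Helper15.AB.StDB) : StExc := by
  intro ω hω a lev η ha hlev hSp hη2
  obtain ⟨hlev2, hη0⟩ := hSp
  obtain ⟨C, hC, hm⟩ := h1
  set δ : ℝ := η - (2 * lev - 1 / 2) with hδ
  have hδ0 : 0 < δ := by rw [hδ]; linarith
  set g : ℝ := 1 / 2 - lev with hg
  have hg0 : 0 < g := by rw [hg]; linarith
  set δ' : ℝ := min (min (δ / 2) (1 / 4)) (g / 4) with hδ'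
  have hδ'0 : 0 < δ' := by
    rw [hδ']
    exact lt_min (lt_min (by linarith) (by norm_num)) (by linarith)
  have hδ'1 : δ' ≤ 1 / 4 := (min_le_left _ _).trans (min_le_right _ _)
  have hδ'2 : δ' ≤ δ / 2 := (min_le_left _ _).trans (min_le_left _ _)
  have hδ'3 : δ' ≤ g / 4 := min_le_right _ _
  obtain ⟨C₂, hC₂, hdb⟩ := h2 (g / 4) (by linarith)
  refine ⟨1 / 2 - δ', by linarith, by linarith, fun A => ?_⟩
  set K : ℝ := C * (8 * (1 + lev) ^ 3 * a ^ (2 * δ') * a) with hK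
  have hK0 : 0 < K := by positivity
  obtain ⟨Y₀, hY₀⟩ := evs_L7 a ha (2 * K) (δ / 2) (5 + 2 * A) (by linarith)
  obtain ⟨Y₁, hY₁⟩ := evs_L7 a ha (2 * K * (C₂ * 2)) (g / 2) (5 + 2 * A) (by linarith)
  refine ⟨max Y₀ Y₁, fun Y hY ξ hξ => ?_⟩
  obtain ⟨hY1, hL, hx, haY, hKd⟩ := hY₀ Y ((le_max_left _ _).trans hY)
  obtain ⟨-, -, -, -, hKg⟩ := hY₁ Y ((le_max_right _ _).trans hY)
  have hY0 : 0 < Y := by linarith
  have hL0 : 0 < Real.log Y := by linarith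
  have hsY : 0 < √Y := Real.sqrt_pos.2 hY0
  set L : ℝ := Real.log Y with hLdef
  set f : ℕ → ℝ := fun N => ∑ r ∈ (Icc 1 ⌊Y ^ lev⌋₊).filter
    (fun r : ℕ => (a * √Y) ^ (1 / 2 - δ') < r), gg (Y ^ lev) ξ r * Sr ω (a * √Y) N r with hf
  set t : ℝ := √Y / L ^ A with ht
  have ht0 : 0 < t := by positivity
  set E : Finset ℕ := (Icc 1 ⌊2 * Y⌋₊).filter (fun N => t < |f N|) with hE
  set τ : ℝ := C₂ * (2 * Y) ^ (g / 4) with hτ
  have hτ0 : 0 ≤ τ := by positivity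
  refine ⟨E, ?_, ?_⟩
  · have hd : ∀ N ∈ E, ∀ M ∈ E, N < M → ((M - N).divisors.card : ℝ) ≤ τ := by
      intro N hN M hM hNM
      refine (hdb (M - N) (by omega)).trans ?_
      refine mul_le_mul_of_nonneg_left ?_ (by linarith)
      refine Real.rpow_le_rpow (Nat.cast_nonneg _) ?_ (by linarith)
      have h3 : M ≤ ⌊2 * Y⌋₊ := (mem_Icc.1 (mem_filter.1 hM).1).2
      have h4 : (M : ℝ) ≤ 2 * Y := (Nat.le_floor_iff (by positivity)).1 h3
      refine le_trans ?_ h4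
      exact_mod_cast Nat.sub_le M N
    have k1 := hm ω hω (a * √Y) (Y ^ lev) ((a * √Y) ^ (1 / 2 - δ')) τ ξ E
      (fun N => if 0 ≤ f N then 1 else -1) hξ hx (Real.one_le_rpow hx (by linarith))
      (Real.one_le_rpow hY1 hlev.le) hτ0
      (fun N _ => by split_ifs <;> simp) hd
    have k2 := signs E f t ht0 (fun N hN => (mem_filter.1 hN).2)
    have k3 := k2.trans k1
    have k4 := size (lev := lev) (δ' := δ') ha hlev hδ'0 hY1 hL hx haY
    set c : ℝ := (E.card : ℝ) with hc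
    have hc0 : 0 ≤ c := Nat.cast_nonneg _
    have k5 : (c * t) ^ 2 ≤ ((Y ^ lev) ^ 2 * c + Y ^ lev * c ^ 2 * τ) *
        (K * (Y ^ (δ' + 1 / 2) * L ^ 5)) := by
      refine k3.trans ?_
      have h5 : 0 ≤ (Y ^ lev) ^ 2 * c + Y ^ lev * c ^ 2 * τ := by positivity
      have h6 := mul_le_mul_of_nonneg_left k4 (mul_nonneg hC.le h5)
      calc _ = C * ((Y ^ lev) ^ 2 * c + Y ^ lev * c ^ 2 * τ) *
            ((1 + Real.log (Y ^ lev)) ^ 3 * (a * √Y / ((a * √Y) ^ (1 / 2 - δ')) ^ 2 + 1) *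
            (a * √Y * (1 + Real.log (a * √Y)) ^ 2)) := by ring
        _ ≤ _ := h6
        _ = _ := by rw [hK]; ring
    have e1 : t ^ 2 = Y / L ^ (2 * A) := by
      rw [ht, div_pow, Real.sq_sqrt hY0.le, ← pow_mul, mul_comm A 2]
    have k6 : c ^ 2 * Y ≤ (K * (Y ^ (δ' + 1 / 2) * L ^ (5 + 2 * A))) *
        ((Y ^ lev) ^ 2 * c + Y ^ lev * c ^ 2 * τ) := by
      have hp : 0 < L ^ (2 * A) := by positivity
      rw [mul_pow, e1] at k5
      have h7 := mul_le_mul_of_nonneg_right k5 hp.le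
      have h8 : c ^ 2 * (Y / L ^ (2 * A)) * L ^ (2 * A) = c ^ 2 * Y := by
        field_simp
      rw [h8] at h7
      refine h7.trans (le_of_eq ?_)
      rw [pow_add]
      ring
    have hK1 : 0 ≤ K * (Y ^ (δ' + 1 / 2) * L ^ (5 + 2 * A)) := by positivity
    have k7 : 2 * (K * (Y ^ (δ' + 1 / 2) * L ^ (5 + 2 * A)) * (Y ^ lev * τ)) ≤ Y := by
      have h9 : τ ≤ C₂ * 2 * Y ^ (g / 4) := by
        rw [hτ, Real.mul_rpow (by norm_num) hY0.le, mul_assoc]
        refine mul_le_mul_of_nonneg_left ?_ (by linarith)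
        refine mul_le_mul_of_nonneg_right ?_ (by positivity)
        have h10 := Real.rpow_le_rpow_of_exponent_le (show (1 : ℝ) ≤ 2 by norm_num)
          (show g / 4 ≤ 1 by rw [hg]; linarith)
        rwa [Real.rpow_one] at h10
      have h11 : Y ^ (δ' + 1 / 2) ≤ Y ^ (g / 4 + 1 / 2) :=
        Real.rpow_le_rpow_of_exponent_le hY1 (by linarith)
      calc 2 * (K * (Y ^ (δ' + 1 / 2) * L ^ (5 + 2 * A)) * (Y ^ lev * τ))
          ≤ 2 * (K * (Y ^ (g / 4 + 1 / 2) * L ^ (5 + 2 * A)) *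
              (Y ^ lev * (C₂ * 2 * Y ^ (g / 4)))) := by gcongr
        _ = (2 * K * (C₂ * 2) * L ^ (5 + 2 * A)) *
              (Y ^ (g / 4 + 1 / 2) * Y ^ lev * Y ^ (g / 4)) := by ring
        _ ≤ Y ^ (g / 2) * (Y ^ (g / 4 + 1 / 2) * Y ^ lev * Y ^ (g / 4)) :=
            mul_le_mul_of_nonneg_right hKg (by positivity)
        _ = Y := by
            rw [← Real.rpow_add hY0, ← Real.rpow_add hY0, ← Real.rpow_add hY0]
            have : g / 2 + (g / 4 + 1 / 2 + lev + g / 4) = 1 := by rw [hg]; ring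
            rw [this, Real.rpow_one]
    have k8 := solve (Q := Y ^ lev) (T := τ) hc0 hY0 hK1 (by positivity) k6 k7
    refine k8.trans ?_
    have e3 : (Y ^ lev) ^ 2 = Y ^ (2 * lev) := by
      rw [← Real.rpow_natCast, ← Real.rpow_mul hY0.le]
      congr 1
      push_cast
      ring
    have e4 : 2 * (K * (Y ^ (δ' + 1 / 2) * L ^ (5 + 2 * A))) * (Y ^ lev) ^ 2 / Y =
        (2 * K * L ^ (5 + 2 * A)) * Y ^ (2 * lev + δ' - 1 / 2) := by
      have h12 : Y ^ (δ' + 1 / 2) * Y ^ (2 * lev) / Y = Y ^ (2 * lev + δ' - 1 / 2) := by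
        rw [← Real.rpow_add hY0, div_eq_iff hY0.ne', ← Real.rpow_add_one hY0.ne']
        congr 1
        ring
      rw [e3, ← h12]
      ring
    rw [e4]
    calc (2 * K * L ^ (5 + 2 * A)) * Y ^ (2 * lev + δ' - 1 / 2)
        ≤ Y ^ (δ / 2) * Y ^ (2 * lev + δ' - 1 / 2) :=
          mul_le_mul_of_nonneg_right hKd (by positivity)
      _ = Y ^ (δ / 2 + (2 * lev + δ' - 1 / 2)) := by rw [← Real.rpow_add hY0]
      _ ≤ Y ^ η := by
          refine Real.rpow_le_rpow_of_exponent_le hY1 ?_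
          linarith
  · intro N hN1 hN2 hNE
    by_contra hcon
    push Not at hcon
    apply hNE
    rw [hE, mem_filter, mem_Icc]
    refine ⟨⟨?_, ?_⟩, hcon⟩
    · have : (0 : ℝ) < N := by linarith
      exact_mod_cast this
    · exact Nat.le_floor hN2

end Pool.Agent.Helper60.PT3
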