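import Pool.Agent.Helper60.PT3.St

/-! Project PT3 (MP_b454d1_nt), module T5 -/

set_option autoImplicit false

namespace Pool.Agent.Helper60.PT3

open Finset ArithmeticFunction
open Pool.Agent.Helper60.GP (PP VV rg IsB JJ II Err an T0 Tq SS)
open Pool.Agent.Helper15.AB (Th ee)
open Pool.Agent.Helper23.GK (cR)
open Pool.Agent.Helper60.PT (StNPY PO ro IsWo MN UpO LoO VU VL IsXi wn gg hh Sr PY cc)

namespace PTP2

theorem mem_PP {N : ℕ} {z : ℝ} {p : ℕ} : p ∈ PP N z ↔ (p : ℝ) < z ∧ p.Prime ∧ ¬ p ∣ N := by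
  unfold PP
  rw [mem_filter, mem_range, Nat.lt_ceil]

theorem mem_PO {z : ℝ} {p : ℕ} : p ∈ PO z ↔ (p : ℝ) < z ∧ p.Prime ∧ p ≠ 2 := by
  unfold PO
  rw [mem_filter, mem_range, Nat.lt_ceil]

theorem mem_PY {Y s t : ℝ} {q : ℕ} :
    q ∈ PY Y s t ↔ (q : ℝ) < Y ^ t ∧ q.Prime ∧ Y ^ s ≤ q := by
  unfold PY
  rw [mem_filter, mem_range, Nat.lt_ceil]

theorem fac_mem {N : ℕ} {z : ℝ} (hN : Even N) {p : ℕ} (hp : p ∈ PP N z) :
    0 ≤ 1 - 1 / ((p : ℝ) - 1) ∧ 1 - 1 / ((p : ℝ) - 1) ≤ 1 := by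
  obtain ⟨-, hpp, hpN⟩ := mem_PP.1 hp
  have h2 : p ≠ 2 := by
    rintro rfl
    exact hpN hN.two_dvd
  have h3 : (3 : ℝ) ≤ p := by
    have := hpp.two_le
    exact_mod_cast (show 3 ≤ p by omega)
  have h4 : 1 / ((p : ℝ) - 1) ≤ 1 := by
    rw [div_le_one (by linarith)]
    linarith
  have h5 : 0 ≤ 1 / ((p : ℝ) - 1) := by
    apply div_nonneg zero_le_one
    linarith
  constructor <;> linarith

theorem VV_nonneg {N : ℕ} {z : ℝ} (hN : Even N) : 0 ≤ VV N z := by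
  unfold VV
  exact prod_nonneg fun p hp => (fac_mem hN hp).1

theorem VV_anti {N : ℕ} {z z' : ℝ} (hN : Even N) (hz : z ≤ z') : VV N z' ≤ VV N z := by
  classical
  have hsub : PP N z ⊆ PP N z' := by
    intro p hp
    obtain ⟨a, b, c⟩ := mem_PP.1 hp
    exact mem_PP.2 ⟨a.trans_le hz, b, c⟩
  have h1 : VV N z' = (∏ p ∈ PP N z' \ PP N z, (1 - 1 / ((p : ℝ) - 1))) * VV N z := by
    unfold VV
    rw [prod_sdiff hsub]
  rw [h1]
  have h2 : ∏ p ∈ PP N z' \ PP N z, (1 - 1 / ((p : ℝ) - 1)) ≤ 1 := by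
    apply prod_le_one
    · intro p hp
      exact (fac_mem hN (mem_sdiff.1 hp).1).1
    · intro p hp
      exact (fac_mem hN (mem_sdiff.1 hp).1).2
  have := mul_le_mul_of_nonneg_right h2 (VV_nonneg (z := z) hN)
  linarith

theorem SS_ge {N : ℕ} : 1 ≤ SS N := by
  unfold SS
  have h : ∏ _p ∈ N.primeFactors.filter (fun p => 2 < p), (1 : ℝ) ≤
      ∏ p ∈ N.primeFactors.filter (fun p => 2 < p), ((p : ℝ) - 1) / ((p : ℝ) - 2) := by
    apply prod_le_prod
    · intro _ _; exact zero_le_one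
    · intro p hp
      have h2 : (2 : ℝ) < p := by exact_mod_cast (mem_filter.1 hp).2
      rw [le_div_iff₀ (by linarith)]
      linarith
  simpa using h

theorem an_nonneg {ω : ℝ → ℝ} (hω : IsB ω) (x : ℝ) (N n : ℕ) : 0 ≤ an ω x N n := by
  unfold an
  split_ifs
  · exact mul_nonneg vonMangoldt_nonneg (hω.nonneg _)
  · exact le_rfl

theorem an_le {ω : ℝ → ℝ} (hω : IsB ω) (x : ℝ) (N n : ℕ) :
    an ω x N n ≤ wn ω x n := by
  unfold an wn
  split_ifs
  · exact le_rfl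
  · exact mul_nonneg vonMangoldt_nonneg (hω.nonneg _)

theorem ro_nonneg (z : ℝ) (n : ℕ) : 0 ≤ ro z n := by
  unfold ro
  split_ifs <;> norm_num

/-- for `n` prime not dividing `N` the two sifting functions agree -/
theorem an_rg {ω : ℝ → ℝ} (hω : IsB ω) (x z : ℝ) {N n : ℕ} (hn : n < N) :
    an ω x N n * rg N z (N - n) ≤ an ω x N n * ro z (N - n) := by
  by_cases hp : n.Prime ∧ ¬ n ∣ N
  swap
  · unfold an
    rw [if_neg hp, zero_mul, zero_mul]
  apply mul_le_mul_of_nonneg_left _ (an_nonneg hω x N n)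
  obtain ⟨hpp, hpN⟩ := hp
  by_cases hrg : ∀ p ∈ PP N z, ¬ p ∣ N - n
  · have : ro z (N - n) = 1 := by
      unfold ro
      rw [if_pos]
      intro p hp hpd
      obtain ⟨a, b, c⟩ := mem_PO.1 hp
      by_cases hN : p ∣ N
      · have h4 : p ∣ n := by
          have := Nat.dvd_sub hN hpd
          rwa [Nat.sub_sub_self hn.le] at this
        have h5 := (Nat.prime_dvd_prime_iff_eq b hpp).1 h4
        exact hpN (h5 ▸ hN)
      · exact hrg p (mem_PP.2 ⟨a, b, hN⟩) hpd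
    rw [this]
    unfold rg
    split_ifs <;> norm_num
  · have : rg N z (N - n) = 0 := by
      unfold rg
      rw [if_neg hrg]
    rw [this]
    exact ro_nonneg _ _

/-- the weights -/
noncomputable def xi (Q : Finset ℕ) (w lam : ℕ → ℝ) (d : ℕ) : ℝ :=
  ∑ q ∈ Q.filter (fun q => q ∣ d), w q * lam (d / q)

section

variable {z D : ℝ} {lam w : ℕ → ℝ} {Q : Finset ℕ}

theorem lam_cop (hl : IsWo z D lam) {q m : ℕ} (hq : q.Prime) (hzq : z ≤ q) (hm : lam m ≠ 0) :
    Nat.Coprime q m := by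
  rw [Nat.Prime.coprime_iff_not_dvd hq]
  intro h
  have := (mem_PO.1 ((hl.supp m hm).2.2 q hq h)).1
  linarith

theorem lam_zero (hl : IsWo z D lam) : lam 0 = 0 := by
  by_contra h
  have := (hl.supp 0 h).1
  simp at this

/-- at most one term -/
theorem xi_one (hl : IsWo z D lam) (hQ : ∀ q ∈ Q, q.Prime ∧ z ≤ q) {d q : ℕ} (hd : d ≠ 0)
    (hq : q ∈ Q) (hqd : q ∣ d) (hlam : lam (d / q) ≠ 0) : xi Q w lam d = w q * lam (d / q) := by
  unfold xi
  rw [sum_eq_single q]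
  · intro q' hq' hne
    rw [mem_filter] at hq'
    have h1 : lam (d / q') = 0 := by
      by_contra h
      have h2 : q ∣ d / q' := by
        rw [Nat.dvd_div_iff_mul_dvd hq'.2]
        exact ((Nat.coprime_primes (hQ q' hq'.1).1 (hQ q hq).1).2 hne).mul_dvd_of_dvd_of_dvd
          hq'.2 hqd
      have := lam_cop hl (hQ q hq).1 (hQ q hq).2 h
      rw [Nat.Prime.coprime_iff_not_dvd (hQ q hq).1] at this
      exact this h2
    rw [h1, mul_zero]
  · intro h
    exact absurd (mem_filter.2 ⟨hq, hqd⟩) h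

theorem xi_exists {d : ℕ} (h : xi Q w lam d ≠ 0) : ∃ q ∈ Q, q ∣ d ∧ lam (d / q) ≠ 0 := by
  unfold xi at h
  obtain ⟨q, hq, hq2⟩ := exists_ne_zero_of_sum_ne_zero h
  rw [mem_filter] at hq
  exact ⟨q, hq.1, hq.2, right_ne_zero_of_mul hq2⟩

theorem xi_zero (hl : IsWo z D lam) : xi Q w lam 0 = 0 := by
  by_contra h
  obtain ⟨q, _, _, h3⟩ := xi_exists h
  rw [Nat.zero_div] at h3
  exact h3 (lam_zero hl)

theorem xi_isXi (hl : IsWo z D lam) (hQ : ∀ q ∈ Q, q.Prime ∧ z ≤ q)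
    (hw : ∀ q ∈ Q, 0 ≤ w q ∧ w q ≤ 1) {T : ℝ} (hT : ∀ q ∈ Q, (q : ℝ) * D ≤ T) (hD : 0 ≤ D) :
    IsXi T (xi Q w lam) := by
  constructor
  · intro d
    by_cases h : xi Q w lam d = 0
    · rw [h]; simp
    · obtain ⟨q, hq, hqd, hlam⟩ := xi_exists h
      have hd : d ≠ 0 := by
        rintro rfl
        exact h (xi_zero hl)
      rw [xi_one hl hQ hd hq hqd hlam, abs_mul, abs_of_nonneg (hw q hq).1]
      have := hl.bound (d / q)
      calc w q * |lam (d / q)| ≤ 1 * 1 :=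
            mul_le_mul (hw q hq).2 this (abs_nonneg _) zero_le_one
        _ = 1 := one_mul 1
  · intro d h
    obtain ⟨q, hq, hqd, hlam⟩ := xi_exists h
    obtain ⟨h1, h2, h3⟩ := hl.supp _ hlam
    have h4 := lam_cop hl (hQ q hq).1 (hQ q hq).2 hlam
    have h5 : q * (d / q) = d := Nat.mul_div_cancel' hqd
    refine ⟨?_, ?_⟩
    · rw [← h5, Nat.squarefree_mul h4]
      exact ⟨(hQ q hq).1.squarefree, h1⟩
    · have h6 : (d : ℝ) = (q : ℝ) * ((d / q : ℕ) : ℝ) := by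
        rw [← Nat.cast_mul, h5]
      rw [h6]
      exact (mul_le_mul_of_nonneg_left h2 (Nat.cast_nonneg q)).trans (hT q hq)

/-- the divisor sums -/
theorem xi_div (hl : IsWo z D lam) (hQ : ∀ q ∈ Q, q.Prime ∧ z ≤ q) {m : ℕ} (hm : 1 ≤ m) :
    ∑ d ∈ m.divisors, xi Q w lam d =
      ∑ q ∈ Q.filter (fun q => q ∣ m), w q * ∑ k ∈ m.divisors, lam k := by
  have h1 : ∀ d ∈ m.divisors, xi Q w lam d =
      ∑ q ∈ Q.filter (fun q => q ∣ m), if q ∣ d then w q * lam (d / q) else 0 := by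
    intro d hd
    unfold xi
    rw [← sum_filter, filter_filter]
    apply sum_congr _ (fun _ _ => rfl)
    ext q
    rw [mem_filter, mem_filter]
    constructor
    · rintro ⟨a, b⟩
      exact ⟨a, b.trans (Nat.dvd_of_mem_divisors hd), b⟩
    · rintro ⟨a, _, c⟩
      exact ⟨a, c⟩
  rw [sum_congr rfl h1, sum_comm]
  apply sum_congr rfl
  intro q hq
  rw [mem_filter] at hq
  obtain ⟨hqp, hzq⟩ := hQ q hq.1
  rw [← sum_filter, ← mul_sum]
  congr 1
  symm
  have h2 : ∑ k ∈ m.divisors, lam k = ∑ k ∈ m.divisors.filter (fun k => q * k ∣ m), lam k := by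
    rw [sum_filter]
    apply sum_congr rfl
    intro k hk
    split_ifs with h
    · rfl
    · by_contra h3
      exact h ((lam_cop hl hqp hzq h3).mul_dvd_of_dvd_of_dvd hq.2 (Nat.dvd_of_mem_divisors hk))
  rw [h2]
  refine sum_bij' (fun k _ => q * k) (fun d _ => d / q) ?_ ?_ ?_ ?_ ?_
  · intro k hk
    rw [mem_filter] at hk ⊢
    exact ⟨Nat.mem_divisors.2 ⟨hk.2, by omega⟩, dvd_mul_right _ _⟩
  · intro d hd
    rw [mem_filter] at hd ⊢
    have h5 : q * (d / q) = d := Nat.mul_div_cancel' hd.2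
    refine ⟨Nat.mem_divisors.2 ⟨?_, by omega⟩, ?_⟩
    · exact (Dvd.intro_left q h5).trans (Nat.dvd_of_mem_divisors hd.1)
    · rw [h5]; exact Nat.dvd_of_mem_divisors hd.1
  · intro k _
    exact Nat.mul_div_cancel_left k hqp.pos
  · intro d hd
    rw [mem_filter] at hd
    exact Nat.mul_div_cancel' hd.2
  · intro k _
    rw [Nat.mul_div_cancel_left k hqp.pos]

/-- the main term -/
theorem xi_MN (hl : IsWo z D lam) (hQ : ∀ q ∈ Q, q.Prime ∧ z ≤ q) {T : ℝ}
    (hT : ∀ q ∈ Q, (q : ℝ) * D ≤ T) (hD : 0 ≤ D) (N : ℕ) :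
    MN N T (xi Q w lam) =
      ∑ q ∈ Q.filter (fun q => ¬ q ∣ N), w q / ((q : ℝ) - 1) * MN N D lam := by
  unfold MN
  have h1 : ∀ d ∈ (Icc 1 ⌊T⌋₊).filter (fun m => Nat.Coprime m N),
      xi Q w lam d / (Nat.totient d : ℝ) =
      ∑ q ∈ Q, if q ∣ d then w q * lam (d / q) / (Nat.totient d : ℝ) else 0 := by
    intro d _
    unfold xi
    rw [← sum_filter, sum_div]
  rw [sum_congr rfl h1, sum_comm, sum_filter]
  apply sum_congr rfl
  intro q hq
  obtain ⟨hqp, hzq⟩ := hQ q hq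
  by_cases hqN : q ∣ N
  · rw [if_neg (not_not.2 hqN)]
    apply sum_eq_zero
    intro d hd
    rw [mem_filter] at hd
    rw [if_neg]
    intro h
    have := Nat.Coprime.coprime_dvd_left h hd.2
    rw [Nat.Prime.coprime_iff_not_dvd hqp] at this
    exact this hqN
  rw [if_pos hqN, mul_sum, ← sum_filter]
  have hqR : (2 : ℝ) ≤ q := by exact_mod_cast hqp.two_le
  symm
  have h2 : ∀ (f : ℕ → ℝ), (∀ k, lam k = 0 → f k = 0) →
      ∑ k ∈ (Icc 1 ⌊D⌋₊).filter (fun m => Nat.Coprime m N), f k =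
      ∑ k ∈ (Icc 1 ⌊T⌋₊).filter (fun k => Nat.Coprime k N ∧ q * k ≤ ⌊T⌋₊), f k := by
    intro f hf
    have hDT : D ≤ T := by
      have := hT q hq
      nlinarith
    apply sum_subset_zero_on_sdiff
    · intro k hk
      rw [mem_filter, mem_Icc] at hk ⊢
      have h3 : (k : ℝ) ≤ D := (Nat.le_floor_iff hD).1 hk.1.2
      have h4 : ((q * k : ℕ) : ℝ) ≤ T := by
        rw [Nat.cast_mul]
        exact (mul_le_mul_of_nonneg_left h3 (Nat.cast_nonneg q)).trans (hT q hq)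
      exact ⟨⟨hk.1.1, Nat.le_floor (h3.trans hDT)⟩, hk.2, Nat.le_floor h4⟩
    · intro k hk
      rw [mem_sdiff, mem_filter, mem_filter, mem_Icc, mem_Icc] at hk
      apply hf
      by_contra h
      have h3 := (hl.supp k h).2.1
      exact hk.2 ⟨⟨hk.1.1.1, Nat.le_floor h3⟩, hk.1.2.1⟩
    · intro _ _; rfl
  rw [h2 (fun k => w q / ((q : ℝ) - 1) * (lam k / (Nat.totient k : ℝ))) (by
    intro k hk; simp only [hk, zero_div, mul_zero])]
  refine sum_bij' (fun k _ => q * k) (fun d _ => d / q) ?_ ?_ ?_ ?_ ?_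
  · intro k hk
    rw [mem_filter, mem_Icc] at hk
    rw [mem_filter, mem_filter, mem_Icc]
    refine ⟨⟨⟨Nat.mul_pos hqp.pos hk.1.1, hk.2.2⟩, ?_⟩, dvd_mul_right _ _⟩
    exact Nat.Coprime.mul_left ((Nat.Prime.coprime_iff_not_dvd hqp).2 hqN) hk.2.1
  · intro d hd
    rw [mem_filter, mem_filter, mem_Icc] at hd
    rw [mem_filter, mem_Icc]
    have h5 : q * (d / q) = d := Nat.mul_div_cancel' hd.2
    have h6 : d / q ≤ d := Nat.div_le_self d q
    refine ⟨⟨?_, h6.trans hd.1.1.2⟩, ?_, ?_⟩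
    · exact Nat.div_pos (Nat.le_of_dvd (by omega) hd.2) hqp.pos
    · exact Nat.Coprime.coprime_dvd_left (Dvd.intro_left q h5) hd.1.2
    · rw [h5]; exact hd.1.1.2
  · intro k _
    exact Nat.mul_div_cancel_left k hqp.pos
  · intro d hd
    rw [mem_filter] at hd
    exact Nat.mul_div_cancel' hd.2
  · intro k _
    rw [Nat.mul_div_cancel_left k hqp.pos]
    by_cases h : lam k = 0
    · rw [h]; simp
    · rw [Nat.totient_mul (lam_cop hl hqp hzq h), Nat.totient_prime hqp, Nat.cast_mul,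
        Nat.cast_sub hqp.one_le, Nat.cast_one, div_mul_div_comm]

end

end PTP2

open PTP2 Filter in
theorem hUp (h1 : StLD) (h2 : StNPY) (h3 : Pool.Agent.Helper60.GP.StPNT) (h4 : Pool.Agent.Helper60.GP.StVlow)
    (h5 : Pool.Agent.Helper15.AB.StDB) (h6 : Pool.Agent.Helper60.GP.StM2) : StUp := by
  classical
  intro σ c hVU hc ω hω hJ a u s t lev η ha hu hus hst hσ hlev hη hη2 ε hε
  have hs : 0 < s := hu.trans_le hus
  have ht : 0 < t := hs.trans hst
  have huσ : 0 < u * σ := by positivity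
  have hlev0 : 0 < lev := by linarith
  set J := JJ ω with hJdef
  have hlog : 0 ≤ Real.log (t / s) := Real.log_nonneg (by rw [le_div_iff₀ hs]; linarith)
  set S0 : ℝ := 2 * (Real.log (t / s) + 1) with hS0
  have hS0pos : 0 < S0 := by positivity
  obtain ⟨ε₁, hε₁0, hε₁1, hε₁⟩ : ∃ ε₁ : ℝ, 0 < ε₁ ∧ ε₁ ≤ 1 ∧ S0 * (ε₁ * (2 + c)) ≤ ε / 2 := by
    refine ⟨min 1 (ε / (2 * S0 * (2 + c))), by positivity, min_le_left _ _, ?_⟩
    have h : min 1 (ε / (2 * S0 * (2 + c))) ≤ ε / (2 * S0 * (2 + c)) := min_le_right _ _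
    calc S0 * (min 1 (ε / (2 * S0 * (2 + c))) * (2 + c))
        ≤ S0 * (ε / (2 * S0 * (2 + c)) * (2 + c)) := by gcongr
      _ = ε / 2 := by field_simp
  obtain ⟨z0, hz0⟩ := hVU ε₁ hε₁0 (2 / u)
  obtain ⟨Y1, hY1⟩ := h1 ω hω a lev η ha hlev0 hη hη2 2
  obtain ⟨x1, hx1⟩ := h3 ω hω (J * ε₁) (by positivity)
  obtain ⟨c0, hc0, N0, hN0⟩ := h4 u hu
  obtain ⟨z1, hz1⟩ := h6 s t hs hst.le 1 one_pos
  have hzt : Tendsto (fun Y : ℝ => Y ^ u) atTop atTop := tendsto_rpow_atTop hu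
  have hxt : Tendsto (fun Y : ℝ => a * √Y) atTop atTop :=
    Real.tendsto_sqrt_atTop.const_mul_atTop ha
  obtain ⟨Y₀, hY₀⟩ : ∃ Y₀ : ℝ, ∀ Y : ℝ, Y₀ ≤ Y → (2 ≤ Y ∧ (N0 : ℝ) ≤ Y ∧ z0 ≤ Y ^ u ∧ z1 ≤ Y ∧
      Y1 ≤ Y ∧ x1 ≤ a * √Y ∧ 3 * a < √Y ∧ 4 / (ε * J * a * c0) ≤ Real.log Y) := by
    rw [← Filter.eventually_atTop]
    filter_upwards [eventually_ge_atTop 2, eventually_ge_atTop (N0 : ℝ),
      hzt.eventually_ge_atTop z0, eventually_ge_atTop z1, eventually_ge_atTop Y1,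
      hxt.eventually_ge_atTop x1, Real.tendsto_sqrt_atTop.eventually_gt_atTop (3 * a),
      Real.tendsto_log_atTop.eventually_ge_atTop (4 / (ε * J * a * c0))]
      with Y a1 a2 a3 a4 a5 a6 a7 a8
    exact ⟨a1, a2, a3, a4, a5, a6, a7, a8⟩
  refine ⟨Y₀, fun Y hY w hw => ?_⟩
  obtain ⟨hY2, hYN0, hYz0, hYz1, hYY1, hYx1, hY3, hYlog⟩ := hY₀ Y hY
  have hYpos : (0 : ℝ) < Y := by linarith
  have hY1' : (1 : ℝ) < Y := by linarith
  have hsq : 0 < √Y := Real.sqrt_pos.2 hYpos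
  have hlY : 0 < Real.log Y := Real.log_pos hY1'
  set x : ℝ := a * √Y with hx
  have hxpos : 0 < x := by positivity
  set z : ℝ := Y ^ u with hz
  have hz1' : 1 ≤ z := Real.one_le_rpow hY1'.le hu.le
  set D : ℝ := z ^ σ with hD
  have hD1 : 1 ≤ D := Real.one_le_rpow hz1' hσ.le
  have hDY : D = Y ^ (u * σ) := by rw [hD, hz, ← Real.rpow_mul hYpos.le]
  obtain ⟨lam, hwo, hup, hms⟩ := hz0 z hYz0 D le_rfl
  set Q : Finset ℕ := PY Y s t with hQdef
  have hQ : ∀ q ∈ Q, q.Prime ∧ z ≤ q := by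
    intro q hq
    obtain ⟨_, b, d⟩ := mem_PY.1 hq
    exact ⟨b, (Real.rpow_le_rpow_of_exponent_le hY1'.le hus).trans d⟩
  have hT : ∀ q ∈ Q, (q : ℝ) * D ≤ Y ^ lev := by
    intro q hq
    have h := (mem_PY.1 hq).1
    calc (q : ℝ) * D ≤ Y ^ t * Y ^ (u * σ) := by
          rw [hDY]
          exact mul_le_mul_of_nonneg_right h.le (Real.rpow_nonneg hYpos.le _)
      _ = Y ^ (t + u * σ) := (Real.rpow_add hYpos _ _).symm
      _ ≤ Y ^ lev := Real.rpow_le_rpow_of_exponent_le hY1'.le hlev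
  set ξ : ℕ → ℝ := xi Q w lam with hξ
  have hXi : IsXi (Y ^ lev) ξ := xi_isXi hwo hQ hw hT (by linarith)
  obtain ⟨E, hE, hE'⟩ := hY1 Y hYY1 ξ hXi
  refine ⟨E, hE, fun N hN hYN hN2 hNE => ?_⟩
  have hLD := hE' N hYN hN2 hNE
  have hNpos : (0 : ℝ) < N := by linarith
  have hN1 : 1 ≤ N := by
    have : (1 : ℝ) ≤ N := by linarith
    exact_mod_cast this
  have hV0 : 0 ≤ VV N z := VV_nonneg hN
  have hx3 : 3 * x < N := by
    have h : Y = √Y * √Y := (Real.mul_self_sqrt hYpos.le).symm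
    refine lt_of_lt_of_le ?_ hYN
    calc 3 * (a * √Y) = (3 * a) * √Y := by ring
      _ < √Y * √Y := mul_lt_mul_of_pos_right hY3 hsq
      _ = Y := h.symm
  -- the upper bound by the weights
  have hwn0 : ∀ n, 0 ≤ wn ω x n := fun n => mul_nonneg vonMangoldt_nonneg (hω.nonneg _)
  have hstep : ∑ q ∈ Q, w q * Tq ω x N z q ≤
      ∑ n ∈ II x, wn ω x n * ∑ d ∈ (N - n).divisors, ξ d := by
    have e1 : ∑ q ∈ Q, w q * Tq ω x N z q = ∑ n ∈ II x, an ω x N n * rg N z (N - n) *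
        ∑ q ∈ Q.filter (fun q => q ∣ N - n), w q := by
      have e2 : ∀ q ∈ Q, w q * Tq ω x N z q =
          ∑ n ∈ II x, if q ∣ N - n then an ω x N n * rg N z (N - n) * w q else 0 := by
        intro q _
        rw [Tq, sum_filter, mul_sum]
        refine sum_congr rfl fun n _ => ?_
        split_ifs
        · ring
        · ring
      rw [sum_congr rfl e2, sum_comm]
      refine sum_congr rfl fun n _ => ?_
      rw [sum_filter, mul_sum]
      refine sum_congr rfl fun q _ => ?_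
      split_ifs <;> simp
    rw [e1]
    apply sum_le_sum
    intro n hn
    have hnN : n < N := by
      rw [II, mem_Icc] at hn
      have h2 : (n : ℝ) ≤ 3 * x := (Nat.le_floor_iff (by positivity)).1 hn.2
      exact_mod_cast h2.trans_lt hx3
    have hm1 : 1 ≤ N - n := by omega
    have e3 := hup (N - n) hm1
    have e4 : ro z (N - n) * ∑ q ∈ Q.filter (fun q => q ∣ N - n), w q ≤
        ∑ d ∈ (N - n).divisors, ξ d := by
      rw [hξ, xi_div hwo hQ hm1, mul_sum]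
      apply sum_le_sum
      intro q hq
      rw [mul_comm]
      exact mul_le_mul_of_nonneg_left e3 (hw q (mem_filter.1 hq).1).1
    have e5 : 0 ≤ ∑ q ∈ Q.filter (fun q => q ∣ N - n), w q :=
      sum_nonneg fun q hq => (hw q (mem_filter.1 hq).1).1
    have e6 : 0 ≤ ∑ d ∈ (N - n).divisors, ξ d := (mul_nonneg (ro_nonneg _ _) e5).trans e4
    calc an ω x N n * rg N z (N - n) * ∑ q ∈ Q.filter (fun q => q ∣ N - n), w q
        ≤ an ω x N n * ro z (N - n) * ∑ q ∈ Q.filter (fun q => q ∣ N - n), w q :=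
          mul_le_mul_of_nonneg_right (an_rg hω x z hnN) e5
      _ = an ω x N n * (ro z (N - n) * ∑ q ∈ Q.filter (fun q => q ∣ N - n), w q) := by ring
      _ ≤ an ω x N n * ∑ d ∈ (N - n).divisors, ξ d :=
          mul_le_mul_of_nonneg_left e4 (an_nonneg hω x N n)
      _ ≤ _ := mul_le_mul_of_nonneg_right (an_le hω x N n) e6
  set Θ : ℝ := Th ω x with hΘ
  have hΘ0 : 0 ≤ Θ := by
    rw [hΘ]
    unfold Th
    exact sum_nonneg (fun n _ => mul_nonneg vonMangoldt_nonneg (hω.nonneg _))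
  have hΘle : Θ ≤ (J + J * ε₁) * x := by
    have := (abs_le.1 (hx1 x hYx1)).2
    linarith
  set S : ℝ := ∑ q ∈ Q, w q / ((q : ℝ) - 1) with hS
  have hq1 : ∀ q ∈ Q, (2 : ℝ) ≤ q := fun q hqm => by exact_mod_cast (hQ q hqm).1.two_le
  have hS0' : 0 ≤ S := by
    apply sum_nonneg
    intro q hqm
    have := hq1 q hqm
    exact div_nonneg (hw q hqm).1 (by linarith)
  have hSle : S ≤ S0 := by
    have e1 := hz1 Y hYz1
    have e2 := (abs_le.1 e1).2
    have e3 : S ≤ 2 * ∑ p ∈ (range ⌈Y ^ t⌉₊).filter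
        (fun p : ℕ => p.Prime ∧ Y ^ s ≤ p), (1 : ℝ) / p := by
      rw [hS, mul_sum, hQdef, PY]
      apply sum_le_sum
      intro q hqm
      have e4 := hq1 q hqm
      calc w q / ((q : ℝ) - 1) ≤ 1 / ((q : ℝ) - 1) := by
            apply div_le_div_of_nonneg_right (hw q hqm).2 (by linarith)
        _ ≤ 2 * ((1 : ℝ) / q) := by
            rw [mul_one_div, div_le_div_iff₀ (by linarith) (by linarith)]
            linarith
    rw [hS0]
    linarith
  -- the main term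
  have hMN : MN N (Y ^ lev) ξ ≤ S * ((c + ε₁) * VV N z) := by
    rw [hξ, xi_MN hwo hQ hT (by linarith), hS, sum_mul]
    have e1 : MN N D lam ≤ (c + ε₁) * VV N z := by
      apply hms N hN hN1
      rw [hz, ← Real.rpow_mul hYpos.le, mul_div_cancel₀ _ hu.ne']
      refine hN2.trans ?_
      rw [show (2 : ℝ) = ((2 : ℕ) : ℝ) by norm_num, Real.rpow_natCast]
      push_cast
      nlinarith
    calc ∑ q ∈ Q.filter (fun q => ¬ q ∣ N), w q / ((q : ℝ) - 1) * MN N D lam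
        ≤ ∑ q ∈ Q.filter (fun q => ¬ q ∣ N), w q / ((q : ℝ) - 1) * ((c + ε₁) * VV N z) := by
          apply sum_le_sum
          intro q hq
          have hq' := (mem_filter.1 hq).1
          apply mul_le_mul_of_nonneg_left e1
          exact div_nonneg (hw q hq').1 (by linarith [hq1 q hq'])
      _ ≤ _ := by
          apply sum_le_sum_of_subset_of_nonneg (filter_subset _ _)
          intro q hq _
          have := hq1 q hq
          exact mul_nonneg (div_nonneg (hw q hq).1 (by linarith)) (by positivity)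
  have hmain : ∑ q ∈ Q, w q * Tq ω x N z q ≤ Θ * (S * ((c + ε₁) * VV N z)) +
      √Y / Real.log Y ^ 2 := by
    have e1 := (abs_le.1 hLD).2
    have e2 := mul_le_mul_of_nonneg_left hMN hΘ0
    linarith
  have hVlow : c0 / (2 * Real.log Y) ≤ VV N z := by
    have e1 : VV N ((N : ℝ) ^ u) ≤ VV N z :=
      VV_anti hN (Real.rpow_le_rpow hYpos.le hYN hu.le)
    have hNN0 : N0 ≤ N := by exact_mod_cast hYN0.trans hYN
    refine le_trans ?_ ((hN0 N hNN0 hN).trans e1)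
    have hl : 0 < Real.log N := Real.log_pos (by linarith)
    have e2 : Real.log N ≤ 2 * Real.log Y := by
      have e3 : Real.log N ≤ Real.log (2 * Y) := Real.log_le_log hNpos hN2
      rw [Real.log_mul (by norm_num) hYpos.ne'] at e3
      have e4 : Real.log 2 ≤ Real.log Y := Real.log_le_log (by norm_num) hY2
      linarith
    have := SS_ge (N := N)
    calc c0 / (2 * Real.log Y) ≤ c0 / Real.log N :=
          div_le_div_of_nonneg_left hc0.le hl e2
      _ ≤ c0 * SS N / Real.log N := by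
          apply div_le_div_of_nonneg_right _ hl.le
          nlinarith
  have herr : √Y / Real.log Y ^ 2 ≤ ε / 2 * (VV N z * (J * x)) := by
    have e2 : √Y / Real.log Y ^ 2 ≤ ε / 2 * (c0 / (2 * Real.log Y) * (J * x)) := by
      have e4 : ε / 2 * (c0 / (2 * Real.log Y) * (J * x)) =
          √Y / Real.log Y ^ 2 * (ε * J * a * c0 * Real.log Y / 4) := by
        rw [hx]
        field_simp
        ring
      rw [e4]
      have e5 : 1 ≤ ε * J * a * c0 * Real.log Y / 4 := by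
        rw [div_le_iff₀ (by positivity)] at hYlog
        rw [le_div_iff₀ (by norm_num)]
        linarith
      have e6 : 0 ≤ √Y / Real.log Y ^ 2 := by positivity
      nlinarith
    refine e2.trans ?_
    gcongr
  have hfst : Θ * (S * ((c + ε₁) * VV N z)) ≤ (c * S + ε / 2) * (VV N z * (J * x)) := by
    have e1 : Θ * (S * ((c + ε₁) * VV N z)) ≤ ((J + J * ε₁) * x) * (S * ((c + ε₁) * VV N z)) :=
      mul_le_mul_of_nonneg_right hΘle (by positivity)
    refine e1.trans ?_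
    have e4 : ((J + J * ε₁) * x) * (S * ((c + ε₁) * VV N z)) =
        ((1 + ε₁) * (c + ε₁) * S) * (VV N z * (J * x)) := by ring
    rw [e4]
    apply mul_le_mul_of_nonneg_right _ (by positivity)
    have e5 : (1 + ε₁) * (c + ε₁) * S = c * S + S * (ε₁ * (1 + c + ε₁)) := by ring
    rw [e5]
    have e6 : S * (ε₁ * (1 + c + ε₁)) ≤ S0 * (ε₁ * (2 + c)) := by
      apply mul_le_mul hSle _ (by positivity) hS0pos.le
      apply mul_le_mul_of_nonneg_left _ hε₁0.le
      linarith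
    linarith
  calc ∑ q ∈ Q, w q * Tq ω x N z q ≤ Θ * (S * ((c + ε₁) * VV N z)) +
      √Y / Real.log Y ^ 2 := hmain
    _ ≤ (c * S + ε / 2) * (VV N z * (J * x)) + ε / 2 * (VV N z * (J * x)) := add_le_add hfst herr
    _ = _ := by ring

end Pool.Agent.Helper60.PT3
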