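import Pool.Agent.Helper60.PT3.St

/-! Project PT3 (MP_b454d1_nt), module T6 -/

set_option autoImplicit false

namespace Pool.Agent.Helper60.PT3

open Finset ArithmeticFunction
open Pool.Agent.Helper60.GP (PP VV rg IsB JJ II Err an T0 Tq SS)
open Pool.Agent.Helper60.PT (PO ro IsWo MN UpO LoO VU VL IsXi wn gg hh Sr PY cc)

namespace T6

theorem VV_nonneg {N : ℕ} {z : ℝ} (hN : Even N) : 0 ≤ VV N z := by
  unfold VV
  refine prod_nonneg fun p hp => ?_
  have h1 : p.Prime ∧ ¬ p ∣ N := (mem_filter.1 hp).2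
  have h2 : p ≠ 2 := by
    rintro rfl
    exact h1.2 hN.two_dvd
  have h3 : (3 : ℝ) ≤ p := by
    have := h1.1.two_le
    exact_mod_cast (show 3 ≤ p by omega)
  have : 1 / ((p : ℝ) - 1) ≤ 1 := by
    rw [div_le_one (by linarith)]
    linarith
  linarith

theorem VL_zero (s : ℝ) : VL s 0 := by
  intro ε hε M
  refine ⟨0, fun z _ D _ => ⟨fun _ => 0, ⟨fun m => by simp, fun m h => absurd rfl h⟩, ?_, ?_⟩⟩
  · intro n _
    simp only [sum_const_zero]
    unfold ro
    split_ifs <;> norm_num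
  · intro N hN _ _
    unfold MN
    simp only [zero_div, sum_const_zero, zero_sub]
    have := VV_nonneg (z := z) hN
    nlinarith

theorem VU_mono {s c c' : ℝ} (h : c ≤ c') (hV : VU s c) : VU s c' := by
  intro ε hε M
  obtain ⟨z₀, hz⟩ := hV ε hε M
  refine ⟨z₀, fun z h1 D h2 => ?_⟩
  obtain ⟨lam, a1, a2, a3⟩ := hz z h1 D h2
  refine ⟨lam, a1, a2, fun N b1 b2 b3 => (a3 N b1 b2 b3).trans ?_⟩
  exact mul_le_mul_of_nonneg_right (by linarith) (VV_nonneg b1)

end T6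

open T6 in
theorem hTab (h1 : Pool.Agent.Helper60.PT.StTab) (h2 : Pool.Agent.Helper60.PT.StRecU) : StTab := by
  have h3 : ∀ j U : ℕ, (∃ e ∈ Pool.Agent.Helper60.PT.cells2, e.2.2 = (j, U)) →
      VU ((j : ℝ) / 32) ((U : ℝ) / 10 ^ 8) := by
    rintro j U ⟨e, he, h4⟩
    have h5 := h1.1 e (List.mem_append_left _ he)
    rw [h4] at h5
    exact h5
  have h11 : VU (11 / 32) (1059924116 / 10 ^ 8) := by
    have := h3 11 1059924116 (by decide +kernel)
    exact_mod_cast this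
  have hlow : ∀ j U : ℕ, 0 < j → j ≤ 11 → 11 * 1059924116 ≤ j * U →
      VU ((j : ℝ) / 32) ((U : ℝ) / 10 ^ 8) := by
    intro j U hj hj2 hU
    have hj0 : (0 : ℝ) < j := by exact_mod_cast hj
    have hj1 : (j : ℝ) ≤ 11 := by exact_mod_cast hj2
    have h5 := h2 ((j : ℝ) / 32) (11 / 32) (1059924116 / 10 ^ 8) 0 (by positivity)
      (by linarith) h11 (VL_zero _)
    refine VU_mono ?_ h5
    have hUr : (11 : ℝ) * 1059924116 ≤ j * U := by exact_mod_cast hU
    rw [mul_zero, sub_zero, div_le_iff₀ (by positivity)]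
    linarith
  have key : ∀ e ∈ cells, (∃ f ∈ Pool.Agent.Helper60.PT.cells2, f.2.2 = e.2.2) ∨
      (0 < e.2.2.1 ∧ e.2.2.1 ≤ 11 ∧ 11 * 1059924116 ≤ e.2.2.1 * e.2.2.2) := by
    decide +kernel
  intro e he
  rcases key e he with h | ⟨a, b, c⟩
  · exact h3 _ _ h
  · exact hlow _ _ a b c

end Pool.Agent.Helper60.PT3
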