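import Pool.Agent.Helper60.PT3.St

/-! Project PT3 (MP_b454d1_nt), module T7 -/

set_option autoImplicit false

namespace Pool.Agent.Helper60.PT3

open Finset ArithmeticFunction
open Pool.Agent.Helper60.GP (PP VV rg IsB JJ II Err an T0 Tq SS)
open Pool.Agent.Helper15.AB (Th ee)
open Pool.Agent.Helper23.GK (cR)
open Pool.Agent.Helper60.PT (StSumY PO ro IsWo MN UpO LoO VU VL IsXi wn gg hh Sr PY cc)

namespace PTP4

theorem mem_PY {Y s t : ℝ} {q : ℕ} :
    q ∈ PY Y s t ↔ (q : ℝ) < Y ^ t ∧ q.Prime ∧ Y ^ s ≤ q := by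
  unfold PY
  rw [mem_filter, mem_range, Nat.lt_ceil]

theorem PY_self (Y s : ℝ) : PY Y s s = ∅ := by
  rw [eq_empty_iff_forall_notMem]
  intro q hq
  obtain ⟨h1, -, h2⟩ := mem_PY.1 hq
  linarith

theorem PY_split {Y s t v : ℝ} (hY : 1 ≤ Y) (hst : s ≤ t) (htv : t ≤ v) (f : ℕ → ℝ) :
    ∑ q ∈ PY Y s v, f q = ∑ q ∈ PY Y s t, f q + ∑ q ∈ PY Y t v, f q := by
  classical
  have h1 : PY Y s v = PY Y s t ∪ PY Y t v := by
    ext q
    rw [mem_union, mem_PY, mem_PY, mem_PY]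
    have e1 := Real.rpow_le_rpow_of_exponent_le hY hst
    have e2 := Real.rpow_le_rpow_of_exponent_le hY htv
    constructor
    · rintro ⟨a, b, c⟩
      rcases lt_or_ge (q : ℝ) (Y ^ t) with h | h
      · exact Or.inl ⟨h, b, c⟩
      · exact Or.inr ⟨a, b, h⟩
    · rintro (⟨a, b, c⟩ | ⟨a, b, c⟩)
      · exact ⟨a.trans_le e2, b, c⟩
      · exact ⟨a, b, e1.trans c⟩
  rw [h1, sum_union]
  rw [disjoint_left]
  intro q hq1 hq2
  have a := (mem_PY.1 hq1).1
  have b := (mem_PY.1 hq2).2.2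
  linarith

theorem VV_nonneg {N : ℕ} {z : ℝ} (hN : Even N) : 0 ≤ VV N z := by
  unfold VV
  apply prod_nonneg
  intro p hp
  unfold PP at hp
  rw [mem_filter] at hp
  have h2 : p ≠ 2 := by
    rintro rfl
    exact hp.2.2 hN.two_dvd
  have h3 : (3 : ℝ) ≤ p := by
    have := hp.2.1.two_le
    exact_mod_cast (show 3 ≤ p by omega)
  have : 1 / ((p : ℝ) - 1) ≤ 1 := by
    rw [div_le_one (by linarith)]
    linarith
  linarith

end PTP4

open PTP4 in
theorem hSec (h1 : StUp) (h2 : StSumY) : StSec := by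
  classical
  intro lv v cs
  induction cs with
  | nil =>
    intro s hs hC _ ω hω hJ a η ha hη hη2 ε hε
    refine ⟨0, fun Y hY => ⟨∅, ?_, fun N hN _ _ _ => ?_⟩⟩
    · simpa using Real.rpow_nonneg hY η
    · have h3 : s = v := hC
      subst h3
      rw [PY_self, sum_empty]
      have := VV_nonneg (z := Y ^ ((704 : ℝ) / 10000)) hN
      simp only [List.map_nil, List.sum_nil, zero_add]
      positivity
  | cons e es ih =>
    intro s hs hC hVU ω hω hJ a η ha hη hη2 ε hε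
    obtain ⟨c1, c2, c3, c4, c5, c6⟩ := hC
    obtain ⟨η', hη'1, hη'2, hη'3⟩ : ∃ η' : ℝ, Sp ((lv : ℝ) / 10 ^ 4) η' ∧
        2 * ((lv : ℝ) / 10 ^ 4) - 1 / 2 < η' ∧ η' < η := by
      refine ⟨(η + max 0 (2 * ((lv : ℝ) / 10 ^ 4) - 1 / 2)) / 2, ⟨hη.1, ?_⟩, ?_, ?_⟩
      · have h7 := le_max_left (0 : ℝ) (2 * ((lv : ℝ) / 10 ^ 4) - 1 / 2)
        have h8 := hη.2
        linarith
      · have := le_max_right (0 : ℝ) (2 * ((lv : ℝ) / 10 ^ 4) - 1 / 2)
        linarith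
      · have := max_lt hη.2 hη2
        linarith
    set c : ℝ := (e.2.2.2 : ℝ) / 10 ^ 8 with hc
    have hc0 : 0 ≤ c := by positivity
    have hsR : (704 : ℝ) ≤ s := by exact_mod_cast hs
    have hstR : (s : ℝ) < (e.2.1 : ℝ) := by exact_mod_cast c2
    have htvR : (e.2.1 : ℝ) ≤ v := by exact_mod_cast c3
    have hlvR : (e.2.1 : ℝ) + 22 * (e.2.2.1 : ℝ) ≤ lv := by exact_mod_cast c4
    have hσR : (0 : ℝ) < (e.2.2.1 : ℝ) := by exact_mod_cast c5
    have hv0 : (0 : ℝ) < v := by linarith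
    obtain ⟨Y₁, hY₁⟩ := h1 ((e.2.2.1 : ℝ) / 32) c (hVU e List.mem_cons_self) hc0 ω hω hJ a
      (704 / 10000) ((s : ℝ) / 10 ^ 4) ((e.2.1 : ℝ) / 10 ^ 4) ((lv : ℝ) / 10 ^ 4) η' ha (by norm_num)
      (by rw [le_div_iff₀ (by norm_num)]; linarith)
      (by apply div_lt_div_of_pos_right hstR (by norm_num)) (by positivity)
      (by
        have : (704 / 10000 : ℝ) * ((e.2.2.1 : ℝ) / 32) = 22 * (e.2.2.1 : ℝ) / 10 ^ 4 := by ring
        rw [this, ← add_div]
        exact div_le_div_of_nonneg_right hlvR (by norm_num)) hη'1 hη'2 (ε / 4) (by positivity)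
    obtain ⟨Y₂, hY₂⟩ := h2 ((s : ℝ) / 10 ^ 4) ((e.2.1 : ℝ) / 10 ^ 4) ((v : ℝ) / 10 ^ 4)
      (by positivity) (by apply div_lt_div_of_pos_right hstR (by norm_num))
      (by apply div_le_div_of_nonneg_right htvR (by norm_num)) (ε / (4 * (c + 1))) (by positivity)
    obtain ⟨Y₃, hY₃⟩ := ih e.2.1 (by omega) c6 (fun f hf => hVU f (List.mem_cons_of_mem _ hf)) ω hω
      hJ a η' ha hη'1 hη'2 (ε / 2) (by positivity)
    obtain ⟨Y₄, hY₄⟩ := Filter.eventually_atTop.1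
      ((tendsto_rpow_atTop (show (0 : ℝ) < η - η' by linarith)).eventually_ge_atTop 2)
    refine ⟨max (max Y₁ Y₂) (max (max Y₃ Y₄) 2), fun Y hY => ?_⟩
    have g1 : Y₁ ≤ Y := ((le_max_left _ _).trans (le_max_left _ _)).trans hY
    have g2 : Y₂ ≤ Y := ((le_max_right _ _).trans (le_max_left _ _)).trans hY
    have g34 : max Y₃ Y₄ ≤ Y := ((le_max_left _ _).trans (le_max_right _ _)).trans hY
    have g3 : Y₃ ≤ Y := (le_max_left _ _).trans g34
    have g4 : Y₄ ≤ Y := (le_max_right _ _).trans g34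
    have g5 : (2 : ℝ) ≤ Y := ((le_max_right _ _).trans (le_max_right _ _)).trans hY
    have hY1 : (1 : ℝ) < Y := by linarith
    have hY0 : (0 : ℝ) < Y := by linarith
    have hlogY : 0 < Real.log Y := Real.log_pos hY1
    set w : ℕ → ℝ := fun q => 1 - Real.log q / ((v : ℝ) / 10 ^ 4 * Real.log Y) with hw
    have hw01 : ∀ q ∈ PY Y ((s : ℝ) / 10 ^ 4) ((e.2.1 : ℝ) / 10 ^ 4), 0 ≤ w q ∧ w q ≤ 1 := by
      intro q hq
      obtain ⟨a1, b1, d1⟩ := mem_PY.1 hq
      have hq0 : (0 : ℝ) < q := by exact_mod_cast b1.pos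
      have hq1 : (1 : ℝ) ≤ q := by exact_mod_cast b1.one_le
      have a2 : (q : ℝ) ≤ Y ^ ((v : ℝ) / 10 ^ 4) :=
        a1.le.trans (Real.rpow_le_rpow_of_exponent_le hY1.le
          (div_le_div_of_nonneg_right htvR (by norm_num)))
      have h3 : Real.log q ≤ (v : ℝ) / 10 ^ 4 * Real.log Y := by
        rw [← Real.log_rpow hY0]
        exact Real.log_le_log hq0 a2
      have h5 : 0 < (v : ℝ) / 10 ^ 4 * Real.log Y := by positivity
      have h4 : Real.log q / ((v : ℝ) / 10 ^ 4 * Real.log Y) ≤ 1 := by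
        rw [div_le_one h5]; exact h3
      have h6 : 0 ≤ Real.log q / ((v : ℝ) / 10 ^ 4 * Real.log Y) :=
        div_nonneg (Real.log_nonneg hq1) h5.le
      simp only [hw]
      constructor <;> linarith
    obtain ⟨E₁, hE₁, hE₁'⟩ := hY₁ Y g1 w hw01
    obtain ⟨E₂, hE₂, hE₂'⟩ := hY₃ Y g3
    refine ⟨E₁ ∪ E₂, ?_, fun N hN hYN hN2 hNE => ?_⟩
    · have h3 : ((E₁ ∪ E₂).card : ℝ) ≤ E₁.card + E₂.card := by exact_mod_cast card_union_le _ _
      have h4 : Y ^ η = Y ^ η' * Y ^ (η - η') := by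
        rw [← Real.rpow_add hY0]; congr 1; ring
      have h5 := hY₄ Y g4
      have h6 : 0 ≤ Y ^ η' := Real.rpow_nonneg hY0.le _
      rw [h4]
      nlinarith
    · rw [mem_union, not_or] at hNE
      have e1 := hE₁' N hN hYN hN2 hNE.1
      have e2 := hE₂' N hN hYN hN2 hNE.2
      have e3 := hY₂ Y g2
      set B : ℝ := VV N (Y ^ ((704 : ℝ) / 10000)) * (JJ ω * (a * √Y)) with hB
      have hB0 : 0 ≤ B := by
        have := VV_nonneg (z := Y ^ ((704 : ℝ) / 10000)) hN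
        positivity
      rw [PY_split (t := (e.2.1 : ℝ) / 10 ^ 4) hY1.le
        (div_le_div_of_nonneg_right hstR.le (by norm_num))
        (div_le_div_of_nonneg_right htvR (by norm_num))]
      have e4 : Real.log ((e.2.1 : ℝ) / 10 ^ 4 / ((s : ℝ) / 10 ^ 4)) -
          ((e.2.1 : ℝ) / 10 ^ 4 - (s : ℝ) / 10 ^ 4) / ((v : ℝ) / 10 ^ 4) =
          Real.log ((e.2.1 : ℝ) / s) - ((e.2.1 : ℝ) - s) / v := by
        congr 1
        · congr 1
          rw [div_div_div_cancel_right₀ (by norm_num)]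
        · rw [← sub_div, div_div_div_cancel_right₀ (by norm_num)]
      rw [e4] at e3
      have e5 : cc v e = c * (Real.log ((e.2.1 : ℝ) / s) - ((e.2.1 : ℝ) - s) / v) := by
        rw [cc, c1]
      have e6 : c * (ε / (4 * (c + 1))) ≤ ε / 4 := by
        rw [← mul_div_assoc, div_le_div_iff₀ (by positivity) (by norm_num)]
        nlinarith
      have e7 := mul_le_mul_of_nonneg_left e3 hc0
      have e8 : c * ∑ q ∈ PY Y ((s : ℝ) / 10 ^ 4) ((e.2.1 : ℝ) / 10 ^ 4), w q / ((q : ℝ) - 1) +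
          ε / 4 ≤ cc v e + ε / 2 := by
        rw [e5]
        have : c * ∑ q ∈ PY Y ((s : ℝ) / 10 ^ 4) ((e.2.1 : ℝ) / 10 ^ 4), w q / ((q : ℝ) - 1) ≤
            c * (Real.log ((e.2.1 : ℝ) / s) - ((e.2.1 : ℝ) - s) / v + ε / (4 * (c + 1))) := e7
        rw [mul_add] at this
        linarith
      have e9 := mul_le_mul_of_nonneg_right e8 hB0
      have e10 : (List.map (cc v) (e :: es)).sum = cc v e + (List.map (cc v) es).sum := by simp
      rw [e10]
      calc _ ≤ (c * ∑ q ∈ PY Y ((s : ℝ) / 10 ^ 4) ((e.2.1 : ℝ) / 10 ^ 4), w q / ((q : ℝ) - 1) +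
            ε / 4) * B + ((List.map (cc v) es).sum + ε / 2) * B := add_le_add e1 e2
        _ ≤ (cc v e + ε / 2) * B + ((List.map (cc v) es).sum + ε / 2) * B := by linarith
        _ = _ := by ring

end Pool.Agent.Helper60.PT3
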