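import Pool.Agent.Helper60.PT3.St

/-! Project PT3 (MP_b454d1_nt), module T8 -/

set_option autoImplicit false

namespace Pool.Agent.Helper60.PT3

open Finset ArithmeticFunction
open Pool.Agent.Helper60.GP (PP VV rg IsB JJ II Err an T0 Tq SS)
open Pool.Agent.Helper15.AB (Th ee)
open Pool.Agent.Helper23.GK (cR)
open Pool.Agent.Helper60.PT (PO ro IsWo MN UpO LoO VU VL IsXi wn gg hh Sr PY cc)

namespace PTP5

/-- rational upper bound for `cc v e` -/
def qq (v : ℕ) (e : ℕ × ℕ × ℕ × ℕ) : ℚ :=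
  let y : ℚ := ((e.2.1 : ℚ) - e.1) / e.1
  (e.2.2.2 : ℚ) / 10 ^ 8 * (y - y ^ 2 / 2 + y ^ 3 / 3 - ((e.2.1 : ℚ) - e.1) / v)

theorem log_le (y : ℝ) (hy : 0 ≤ y) : Real.log (1 + y) ≤ y - y ^ 2 / 2 + y ^ 3 / 3 := by
  have h : MonotoneOn (fun y : ℝ => y - y ^ 2 / 2 + y ^ 3 / 3 - Real.log (1 + y)) (Set.Ici 0) := by
    refine monotoneOn_of_deriv_nonneg (convex_Ici 0) ?_ ?_ ?_
    · refine ContinuousOn.sub (by fun_prop) (ContinuousOn.log (by fun_prop) ?_)
      intro x hx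
      have := Set.mem_Ici.1 hx
      linarith
    · intro x hx
      rw [interior_Ici] at hx
      have hx' := Set.mem_Ioi.1 hx
      have : (1 : ℝ) + x ≠ 0 := by linarith
      refine DifferentiableAt.differentiableWithinAt ?_
      exact DifferentiableAt.sub (by fun_prop) (DifferentiableAt.log (by fun_prop) this)
    · intro x hx
      rw [interior_Ici] at hx
      have hx' := Set.mem_Ioi.1 hx
      have h1 : (1 : ℝ) + x ≠ 0 := by linarith
      have h2 : HasDerivAt (fun y : ℝ => y - y ^ 2 / 2 + y ^ 3 / 3 - Real.log (1 + y))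
          (1 - (2 : ℕ) * x ^ (2 - 1) / 2 + (3 : ℕ) * x ^ (3 - 1) / 3 - 1 / (1 + x)) x := by
        exact (((hasDerivAt_id x).sub ((hasDerivAt_pow 2 x).div_const 2)).add
          ((hasDerivAt_pow 3 x).div_const 3)).sub (((hasDerivAt_id x).const_add 1).log h1)
      rw [h2.deriv]
      have h3 : (1 : ℝ) - (2 : ℕ) * x ^ (2 - 1) / 2 + (3 : ℕ) * x ^ (3 - 1) / 3 - 1 / (1 + x) =
          x ^ 3 / (1 + x) := by
        field_simp
        push_cast
        ring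
      rw [h3]
      positivity
  have h1 := h (Set.mem_Ici.2 le_rfl) (Set.mem_Ici.2 hy) hy
  simp only [add_zero, Real.log_one] at h1
  linarith

theorem cc_le (v : ℕ) (e : ℕ × ℕ × ℕ × ℕ) (hs : 0 < e.1) (hst : e.1 ≤ e.2.1) :
    cc v e ≤ (qq v e : ℝ) := by
  have hs0 : (0 : ℝ) < e.1 := by exact_mod_cast hs
  have hst' : (e.1 : ℝ) ≤ e.2.1 := by exact_mod_cast hst
  unfold cc qq
  push_cast
  have h1 : (e.2.1 : ℝ) / e.1 = 1 + ((e.2.1 : ℝ) - e.1) / e.1 := by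
    field_simp
    ring
  have h2 := log_le (((e.2.1 : ℝ) - e.1) / e.1) (div_nonneg (by linarith) hs0.le)
  rw [h1]
  refine mul_le_mul_of_nonneg_left ?_ (by positivity)
  linarith

theorem sum_le (v : ℕ) (cs : List (ℕ × ℕ × ℕ × ℕ)) (B : ℚ)
    (h : ∀ e ∈ cs, 0 < e.1 ∧ e.1 ≤ e.2.1) (hB : (cs.map (qq v)).sum ≤ B) :
    (cs.map (cc v)).sum ≤ (B : ℝ) := by
  have h1 : (cs.map (cc v)).sum ≤ (cs.map (fun e => ((qq v e : ℚ) : ℝ))).sum :=
    List.sum_le_sum fun e he => cc_le v e (h e he).1 (h e he).2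
  have h2 : (cs.map (fun e => ((qq v e : ℚ) : ℝ))).sum = (((cs.map (qq v)).sum : ℚ) : ℝ) := by
    rw [Rat.cast_list_sum, List.map_map]
    rfl
  rw [h2] at h1
  exact h1.trans (by exact_mod_cast hB)

/-- decision procedure for `Ch` -/
def chb (lv v : ℕ) : ℕ → List (ℕ × ℕ × ℕ × ℕ) → Bool
  | s, [] => Nat.beq s v
  | s, e :: es => Nat.beq e.1 s && Nat.blt s e.2.1 && Nat.ble e.2.1 v &&
      Nat.ble (e.2.1 + 22 * e.2.2.1) lv && Nat.blt 0 e.2.2.1 && chb lv v e.2.1 es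

theorem chb_ok (lv v : ℕ) : ∀ (cs : List (ℕ × ℕ × ℕ × ℕ)) (s : ℕ), chb lv v s cs = true →
    Ch lv v s cs := by
  intro cs
  induction cs with
  | nil =>
    intro s h
    rw [chb] at h
    exact Nat.eq_of_beq_eq_true h
  | cons e es ih =>
    intro s h
    rw [chb, Bool.and_eq_true, Bool.and_eq_true, Bool.and_eq_true, Bool.and_eq_true,
      Bool.and_eq_true] at h
    obtain ⟨⟨⟨⟨⟨h1, h2⟩, h3⟩, h4⟩, h5⟩, h6⟩ := h
    refine ⟨Nat.eq_of_beq_eq_true h1, ?_, Nat.le_of_ble_eq_true h3, Nat.le_of_ble_eq_true h4, ?_,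
      ih _ h6⟩
    · exact Nat.le_of_ble_eq_true h2
    · exact Nat.le_of_ble_eq_true h5

end PTP5

open PTP5 in
theorem hNum : StNum := by
  refine ⟨chb_ok _ _ _ _ (by decide +kernel), ?_⟩
  have h := sum_le 3539 cells (1130 / 1000) (by decide +kernel) (by decide +kernel)
  refine h.trans (le_of_eq ?_)
  norm_num

end Pool.Agent.Helper60.PT3
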