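import Pool.Agent.Helper60.PT3.M_T1
import Pool.Agent.Helper60.PT3.M_T2
import Pool.Agent.Helper60.PT3.M_T3
import Pool.Agent.Helper60.PT3.M_T4
import Pool.Agent.Helper60.PT3.M_T5
import Pool.Agent.Helper60.PT3.M_T6
import Pool.Agent.Helper60.PT3.M_T7
import Pool.Agent.Helper60.PT3.M_T8
import Pool.Agent.Helper60.PT3.M_T9
import Pool.Agent.Helper60.PT3.M_T10
import Pool.Agent.Helper60.PT3.M_T11
import Pool.Agent.Helper60.PT.All

/-!
# Project PT3 (MP_b454d1_nt): assembly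
-/

set_option autoImplicit false

namespace Pool.Agent.Helper60.PT3

theorem rT1 : StMinS := hMinS Pool.Agent.Helper15.AB.aAL Pool.Agent.Helper29.GK.hRAM
theorem rT2 : StExc := hExc rT1 Pool.Agent.Helper15.AB.hDB
theorem rT3 : StLD := hLD Pool.Agent.Helper60.PT.qL1 Pool.Agent.Helper60.PT.qL2
  Pool.Agent.Helper60.PT.qL3 Pool.Agent.Helper60.PT.qL4 rT2 Pool.Agent.Helper60.PT.qL8
  Pool.Agent.Helper60.GP.pB3 Pool.Agent.Helper15.AB.hDB
theorem rT4 : StLow := hLow rT3 Pool.Agent.Helper60.PT.qL8 Pool.Agent.Helper60.GP.pB4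
  Pool.Agent.Helper60.GP.pM5 Pool.Agent.Helper15.AB.hDB
theorem rT5 : StUp := hUp rT3 Pool.Agent.Helper60.PT.qL8 Pool.Agent.Helper60.GP.pB4
  Pool.Agent.Helper60.GP.pM5 Pool.Agent.Helper15.AB.hDB Pool.Agent.Helper60.GP.pM2
theorem rT6 : StTab := hTab Pool.Agent.Helper60.PT.qO5 Pool.Agent.Helper60.PT.qO3
theorem rT7 : StSec := hSec rT5 Pool.Agent.Helper60.PT.qP3
theorem rT8 : StNum := hNum
theorem rT9 : StRA := hRA Pool.Agent.Helper60.PT.qP6 Pool.Agent.Helper60.GP.pE6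
theorem rT10 : StBlk := hBlk rT6 Pool.Agent.Helper60.PT.qO5 rT4 rT7 rT8 rT9
  Pool.Agent.Helper60.GP.pM5 Pool.Agent.Helper60.GP.pB5
theorem rT11 : StCov := hCov
theorem rMT : StMT := hMT rT10 rT11

end Pool.Agent.Helper60.PT3
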