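import Pool.Agent.Helper60.PT3.St
import Pool.Agent.Helper60.PT.M_L6
import Pool.Agent.Helper29.GK.M_RAM

/-! Project PT3 (MP_b454d1_nt), module T1 -/

set_option autoImplicit false

namespace Pool.Agent.Helper60.PT3

open Finset ArithmeticFunction
open Pool.Agent.Helper60.GP (PP VV rg IsB JJ II Err an T0 Tq SS)
open Pool.Agent.Helper15.AB (Th ee)
open Pool.Agent.Helper23.GK (cR)
open Pool.Agent.Helper60.PT (PO ro IsWo MN UpO LoO VU VL IsXi wn gg hh Sr PY cc)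
open Pool.Agent.Helper60.PT (ee_add_L6 conj_ee_L6 ex_eq_L6 cc_L6 sum_eq_L6 cc_sum_L6)

namespace T1

/-- orthogonality -/
theorem mean (E : Finset ℕ) (e : ℕ → ℝ) (r : ℕ) (hr : 0 < r) :
    ∑ b ∈ range r, ‖∑ N ∈ E, (e N : ℂ) * ee (N * ((b : ℝ) / r))‖ ^ 2 =
      ∑ N ∈ E, ∑ M ∈ E, if (r : ℤ) ∣ (N : ℤ) - M then (r : ℝ) * (e N * e M) else 0 := by
  have h : (((∑ b ∈ range r, ‖∑ N ∈ E, (e N : ℂ) * ee (N * ((b : ℝ) / r))‖ ^ 2 : ℝ)) : ℂ) =
      ((∑ N ∈ E, ∑ M ∈ E, if (r : ℤ) ∣ (N : ℤ) - M then (r : ℝ) * (e N * e M) else 0 : ℝ) : ℂ) := by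
    push_cast
    have h1 : ∀ b ∈ range r, ((‖∑ N ∈ E, (e N : ℂ) * ee (N * ((b : ℝ) / r))‖ : ℝ) : ℂ) ^ 2 =
        ∑ N ∈ E, ∑ M ∈ E, (e N : ℂ) * (e M : ℂ) *
          Pool.Agent.Helper48.BK.ex ((b : ℝ) * (((N : ℤ) - M : ℤ) : ℝ) / r) := by
      intro b _
      rw [← Complex.ofReal_pow, ← Complex.normSq_eq_norm_sq, Complex.normSq_eq_conj_mul_self,
        map_sum, sum_mul_sum, sum_comm]
      refine sum_congr rfl fun N _ => sum_congr rfl fun M _ => ?_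
      rw [map_mul, conj_ee_L6, Complex.conj_ofReal]
      have h2 : (e M : ℂ) * ee (-(M * ((b : ℝ) / r))) * ((e N : ℂ) * ee (N * ((b : ℝ) / r))) =
          (e N : ℂ) * (e M : ℂ) * (ee (N * ((b : ℝ) / r)) * ee (-(M * ((b : ℝ) / r)))) := by ring
      rw [h2, ← ee_add_L6, ex_eq_L6]
      congr 2
      push_cast
      ring
    rw [sum_congr rfl h1, sum_comm]
    refine sum_congr rfl fun N _ => ?_
    rw [sum_comm]
    refine sum_congr rfl fun M _ => ?_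
    rw [← mul_sum, Pool.Agent.Helper29.GK.full_RAM r _ hr]
    split_ifs
    · push_cast
      ring
    · simp
  exact_mod_cast h

/-- the sum over the moduli for one pair -/
theorem pair_ne {N M Q : ℕ} {τ : ℝ} (hNM : N < M) (h : ((M - N).divisors.card : ℝ) ≤ τ) :
    ∑ r ∈ Icc 1 Q, (if (r : ℤ) ∣ (N : ℤ) - M then (r : ℝ) else 0) ≤ Q * τ := by
  rw [← sum_filter]
  have h1 : (Icc 1 Q).filter (fun r : ℕ => (r : ℤ) ∣ (N : ℤ) - M) ⊆ (M - N).divisors := by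
    intro r hr
    obtain ⟨h2, h3⟩ := mem_filter.1 hr
    rw [Nat.mem_divisors]
    refine ⟨?_, by omega⟩
    have h4 : (N : ℤ) - M = -((M - N : ℕ) : ℤ) := by omega
    rw [h4, dvd_neg] at h3
    exact_mod_cast h3
  calc ∑ r ∈ (Icc 1 Q).filter (fun r : ℕ => (r : ℤ) ∣ (N : ℤ) - M), (r : ℝ)
      ≤ ∑ r ∈ (Icc 1 Q).filter (fun r : ℕ => (r : ℤ) ∣ (N : ℤ) - M), (Q : ℝ) := by
        refine sum_le_sum fun r hr => ?_
        exact_mod_cast (mem_Icc.1 (mem_filter.1 hr).1).2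
    _ = ((Icc 1 Q).filter (fun r : ℕ => (r : ℤ) ∣ (N : ℤ) - M)).card * (Q : ℝ) := by
        rw [sum_const, nsmul_eq_mul]
    _ ≤ τ * Q := by
        refine mul_le_mul_of_nonneg_right ?_ (Nat.cast_nonneg _)
        refine le_trans ?_ h
        exact_mod_cast card_le_card h1
    _ = Q * τ := mul_comm _ _

theorem pair_eq (N Q : ℕ) :
    ∑ r ∈ Icc 1 Q, (if (r : ℤ) ∣ (N : ℤ) - N then (r : ℝ) else 0) ≤ (Q : ℝ) ^ 2 := by
  calc ∑ r ∈ Icc 1 Q, (if (r : ℤ) ∣ (N : ℤ) - N then (r : ℝ) else 0)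
      ≤ ∑ r ∈ Icc 1 Q, (Q : ℝ) := by
        refine sum_le_sum fun r hr => ?_
        rw [if_pos (by simp)]
        exact_mod_cast (mem_Icc.1 hr).2
    _ = (Q : ℝ) ^ 2 := by
        rw [sum_const, nsmul_eq_mul, Nat.card_Icc, Nat.add_sub_cancel]
        ring

theorem total (E : Finset ℕ) (e : ℕ → ℝ) (Q : ℕ) (τ : ℝ) (hτ : 0 ≤ τ)
    (he : ∀ N ∈ E, |e N| ≤ 1)
    (hd : ∀ N ∈ E, ∀ M ∈ E, N < M → ((M - N).divisors.card : ℝ) ≤ τ) :
    ∑ r ∈ Icc 1 Q, ∑ b ∈ (range r).filter (fun b => Nat.Coprime b r),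
      ‖∑ N ∈ E, (e N : ℂ) * ee (N * ((b : ℝ) / r))‖ ^ 2 ≤
    (Q : ℝ) ^ 2 * E.card + Q * (E.card : ℝ) ^ 2 * τ := by
  have h1 : ∀ r ∈ Icc 1 Q, ∑ b ∈ (range r).filter (fun b => Nat.Coprime b r),
      ‖∑ N ∈ E, (e N : ℂ) * ee (N * ((b : ℝ) / r))‖ ^ 2 ≤
      ∑ N ∈ E, ∑ M ∈ E, (if (r : ℤ) ∣ (N : ℤ) - M then (r : ℝ) else 0) := by
    intro r hr
    have hr0 : 0 < r := (mem_Icc.1 hr).1
    calc ∑ b ∈ (range r).filter (fun b => Nat.Coprime b r),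
          ‖∑ N ∈ E, (e N : ℂ) * ee (N * ((b : ℝ) / r))‖ ^ 2
        ≤ ∑ b ∈ range r, ‖∑ N ∈ E, (e N : ℂ) * ee (N * ((b : ℝ) / r))‖ ^ 2 :=
          sum_le_sum_of_subset_of_nonneg (filter_subset _ _) fun _ _ _ => by positivity
      _ = _ := mean E e r hr0
      _ ≤ _ := by
          refine sum_le_sum fun N hN => sum_le_sum fun M hM => ?_
          split_ifs
          · have h2 := he N hN
            have h3 := he M hM
            have h4 : e N * e M ≤ 1 := by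
              calc e N * e M ≤ |e N * e M| := le_abs_self _
                _ = |e N| * |e M| := abs_mul _ _
                _ ≤ 1 * 1 := mul_le_mul h2 h3 (abs_nonneg _) zero_le_one
                _ = 1 := one_mul 1
            have h5 : (0 : ℝ) ≤ r := Nat.cast_nonneg r
            nlinarith
          · exact le_rfl
  refine (sum_le_sum h1).trans ?_
  rw [sum_comm]
  have h6 : ∀ N ∈ E, ∑ r ∈ Icc 1 Q, ∑ M ∈ E, (if (r : ℤ) ∣ (N : ℤ) - M then (r : ℝ) else 0) ≤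
      (Q : ℝ) ^ 2 + Q * E.card * τ := by
    intro N hN
    rw [sum_comm]
    have h7 : ∀ M ∈ E, ∑ r ∈ Icc 1 Q, (if (r : ℤ) ∣ (N : ℤ) - M then (r : ℝ) else 0) ≤
        (if M = N then (Q : ℝ) ^ 2 else 0) + Q * τ := by
      intro M hM
      have hQτ : 0 ≤ (Q : ℝ) * τ := mul_nonneg (Nat.cast_nonneg _) hτ
      rcases lt_trichotomy N M with h | h | h
      · have := pair_ne (Q := Q) h (hd N hN M hM h)
        rw [if_neg (by omega)]
        linarith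
      · subst h
        have := pair_eq N Q
        rw [if_pos rfl]
        linarith
      · have h8 := pair_ne (Q := Q) h (hd M hM N hN h)
        rw [if_neg (by omega)]
        have h9 : ∀ r ∈ Icc 1 Q, (if (r : ℤ) ∣ (N : ℤ) - M then (r : ℝ) else 0) =
            (if (r : ℤ) ∣ (M : ℤ) - N then (r : ℝ) else 0) := by
          intro r _
          have : ((r : ℤ) ∣ (N : ℤ) - M) ↔ ((r : ℤ) ∣ (M : ℤ) - N) := by
            rw [← dvd_neg, neg_sub]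
          simp only [this]
        rw [sum_congr rfl h9]
        linarith
    refine (sum_le_sum h7).trans ?_
    rw [sum_add_distrib, sum_ite_eq' E N, if_pos hN, sum_const, nsmul_eq_mul]
    apply le_of_eq
    ring
  refine (sum_le_sum h6).trans (le_of_eq ?_)
  rw [sum_const, nsmul_eq_mul]
  ring

end T1

open T1 in
theorem hMinS (h2 : Pool.Agent.Helper15.AB.StAL) (h3 : Pool.Agent.Helper23.GK.StRam) : StMinS := by
  obtain ⟨C, hC, hcs⟩ := cc_sum_L6 h2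
  refine ⟨C, hC, fun ω hω x D R τ ξ E e hξ hx hR hD hτ he hd => ?_⟩
  have hlD : 0 ≤ Real.log D := Real.log_nonneg hD
  have a2 := hcs ω hω x D R ξ hξ hx hR hD
  set Q : ℕ := ⌊D⌋₊ with hQ
  have hQD : (Q : ℝ) ≤ D := Nat.floor_le (by linarith)
  set I : Finset (Σ _ : ℕ, ℕ) :=
    (Icc 1 Q).sigma fun r => (range r).filter (fun b => Nat.Coprime b r) with hI
  set F : (Σ _ : ℕ, ℕ) → ℂ := fun i => ∑ N ∈ E, (e N : ℂ) * ee (N * ((i.2 : ℝ) / i.1)) with hF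
  set G : (Σ _ : ℕ, ℕ) → ℂ := fun i => cc_L6 ω x D R ξ i.1 i.2 with hG
  have k1 : ((∑ N ∈ E, e N * ∑ r ∈ (Icc 1 Q).filter (fun r : ℕ => R < r),
      gg D ξ r * Sr ω x N r : ℝ) : ℂ) = ∑ i ∈ I, G i * F i := by
    rw [hI, sum_sigma]
    rw [Complex.ofReal_sum]
    have k2 : ∀ N ∈ E, ((e N * ∑ r ∈ (Icc 1 Q).filter (fun r : ℕ => R < r),
        gg D ξ r * Sr ω x N r : ℝ) : ℂ) = ∑ r ∈ Icc 1 Q,
        ∑ b ∈ (range r).filter (fun b => Nat.Coprime b r),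
          (e N : ℂ) * (cc_L6 ω x D R ξ r b * ee (N * (b / r))) := by
      intro N _
      rw [Complex.ofReal_mul, sum_eq_L6 h3, mul_sum]
      refine sum_congr rfl fun r _ => ?_
      rw [mul_sum]
    rw [sum_congr rfl k2, sum_comm]
    refine sum_congr rfl fun r _ => ?_
    rw [sum_comm]
    refine sum_congr rfl fun b _ => ?_
    simp only [hG, hF]
    rw [mul_sum]
    refine sum_congr rfl fun N _ => ?_
    ring
  have k3 : (∑ N ∈ E, e N * ∑ r ∈ (Icc 1 Q).filter (fun r : ℕ => R < r),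
      gg D ξ r * Sr ω x N r) ^ 2 ≤ (∑ i ∈ I, ‖G i‖ ^ 2) * ∑ i ∈ I, ‖F i‖ ^ 2 := by
    rw [← sq_abs, ← Real.norm_eq_abs, ← Complex.norm_real, k1]
    refine le_trans ?_ (sum_mul_sq_le_sq_mul_sq I (fun i => ‖G i‖) fun i => ‖F i‖)
    refine pow_le_pow_left₀ (norm_nonneg _) ?_ 2
    refine (norm_sum_le _ _).trans (sum_le_sum fun i _ => ?_)
    rw [norm_mul]
  have k4 : ∑ i ∈ I, ‖G i‖ ^ 2 ≤
      C * (1 + Real.log D) ^ 3 * (x / R ^ 2 + 1) * (x * (1 + Real.log x) ^ 2) := by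
    rw [hI, sum_sigma]
    exact a2
  have k5 : ∑ i ∈ I, ‖F i‖ ^ 2 ≤ D ^ 2 * E.card + D * (E.card : ℝ) ^ 2 * τ := by
    rw [hI, sum_sigma]
    refine (total E e Q τ hτ he hd).trans ?_
    have hQ2 : (Q : ℝ) ^ 2 ≤ D ^ 2 := pow_le_pow_left₀ (Nat.cast_nonneg _) hQD 2
    have b1 := mul_le_mul_of_nonneg_right hQ2 (Nat.cast_nonneg (α := ℝ) E.card)
    have b2 := mul_le_mul_of_nonneg_right hQD
      (show 0 ≤ (E.card : ℝ) ^ 2 * τ by positivity)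
    linarith
  refine k3.trans ?_
  calc (∑ i ∈ I, ‖G i‖ ^ 2) * ∑ i ∈ I, ‖F i‖ ^ 2
      ≤ (C * (1 + Real.log D) ^ 3 * (x / R ^ 2 + 1) * (x * (1 + Real.log x) ^ 2)) *
        (D ^ 2 * E.card + D * (E.card : ℝ) ^ 2 * τ) :=
        mul_le_mul k4 k5 (sum_nonneg fun _ _ => by positivity) (by positivity)
    _ = _ := by ring

end Pool.Agent.Helper60.PT3
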