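import Pool.Agent.Helper60.PT.St

/-!
# Project PT3 (MP_b454d1_nt): `N = p + P_3` with `p` of size `√N`, for all but `O(X^{23/100})` even `N`

Definitions and statements of the modules (`T1` - `T11`), with their proofs in words. The level of
distribution for sparse exceptional sets: if the error terms of level `D = Y^lev`, `lev < 1/2`, are large for
all `N ∈ E`, `E ⊆ [Y, 2Y]`, then `|E| ≤ Y^(2 lev - 1/2 + ε)`; instead of the dual large sieve over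
`N ∈ [Y, 2Y]` the sum `∑_{r ≤ D} ∑_b |∑_{N ∈ E} ε_N e(bN/r)|²` is bounded by
`D² |E| + D |E|² max τ(N - N')`. Everything else is as in project PT, with `z = Y^0.0704`.
-/

set_option autoImplicit false

noncomputable section

namespace Pool.Agent.Helper60.PT3

open Finset ArithmeticFunction
open Pool.Agent.Helper60.GP (PP VV rg IsB JJ II Err an T0 Tq SS)
open Pool.Agent.Helper15.AB (Th ee)
open Pool.Agent.Helper23.GK (cR)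
open Pool.Agent.Helper60.PT (PO ro IsWo MN UpO LoO VU VL IsXi wn gg hh Sr PY cc)

/-- admissible parameters: level `Y ^ lev` below the length of the interval, `η > 0` -/
def Sp (lev η : ℝ) : Prop := lev < 1 / 2 ∧ 0 < η

open Classical in
/-- the primes `p` of size `√N` for which `N - p` is squarefree with at most `r` prime factors, all of
them larger than `N ^ κ` -/
def Good (r : ℕ) (κ α β : ℝ) (N : ℕ) : Finset ℕ := (range N).filter (fun p => p.Prime ∧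
  α * √N < p ∧ (p : ℝ) < β * √N ∧ Squarefree (N - p) ∧ (N - p).primeFactors.card ≤ r ∧
  ∀ q : ℕ, q.Prime → q ∣ N - p → (N : ℝ) ^ κ < q)

open Classical in
/-- the exceptional even integers `N ≤ X` -/
def Bad (r : ℕ) (κ α β c : ℝ) (X : ℕ) : Finset ℕ := (Icc 1 X).filter (fun N => Even N ∧
  ((Good r κ α β N).card : ℝ) < c * SS N * √N / Real.log N ^ 2)

/-- cells `(s, t, j, U)`: `s`, `t` in units of `10^(-4)`, the sieve has the level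
`Y ^ (0.0704 j / 32)` and the constant `U / 10^8`; the cells cover the range from `s` to `v`, and the
total level is at most `lv` -/
def Ch (lv v : ℕ) : ℕ → List (ℕ × ℕ × ℕ × ℕ) → Prop
  | s, [] => s = v
  | s, e :: es => e.1 = s ∧ s < e.2.1 ∧ e.2.1 ≤ v ∧ e.2.1 + 22 * e.2.2.1 ≤ lv ∧ 0 < e.2.2.1 ∧
      Ch lv v e.2.1 es

/-- the cells -/
def cells : List (ℕ × ℕ × ℕ × ℕ) :=
  [(704, 899, 125, 103374886), (899, 965, 122, 104104443), (965, 1031, 119, 104983797),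
   (1031, 1097, 116, 106043174), (1097, 1163, 113, 107319415), (1163, 1229, 110, 108857668),
   (1229, 1295, 107, 110713604), (1295, 1361, 104, 112956352), (1361, 1427, 101, 115672422),
   (1427, 1493, 98, 118971050), (1493, 1559, 95, 122728031), (1559, 1625, 92, 126730034),
   (1625, 1691, 89, 131001834), (1691, 1757, 86, 135571668), (1757, 1823, 83, 140471850),
   (1823, 1889, 80, 145739546), (1889, 1955, 77, 151417712), (1955, 2021, 74, 157556270),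
   (2021, 2087, 71, 164213579), (2087, 2153, 68, 171458297), (2153, 2219, 65, 179371758),
   (2219, 2285, 62, 188051038), (2285, 2351, 59, 197612957), (2351, 2417, 56, 208199367),
   (2417, 2483, 53, 219984239), (2483, 2549, 50, 233183295), (2549, 2615, 47, 248067336),
   (2615, 2681, 44, 264981020), (2681, 2747, 41, 284369877), (2747, 2813, 38, 306820131),
   (2813, 2879, 35, 333119000), (2879, 2945, 32, 364348907), (2945, 3011, 29, 402040175),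
   (3011, 3077, 26, 448429428), (3077, 3143, 23, 506920224), (3143, 3209, 20, 582958260),
   (3209, 3275, 17, 685833249), (3275, 3341, 14, 832797519), (3341, 3407, 11, 1059924116),
   (3407, 3473, 8, 1457395660), (3473, 3539, 5, 2331833056)]

/-- T1. Put `F_{r,b} = ∑_{N ∈ E} e_N ee(N b/r)`. By `PT.sum_eq_L6` the sum over `N` is
`∑_{r,b} cc_L6 r b F_{r,b}`; Cauchy-Schwarz, `PT.cc_sum_L6`, and `∑_{r ≤ D} ∑*_b |F|² ≤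
∑_{r ≤ D} ∑_{b mod r} |F|² = ∑_{r ≤ D} r ∑_{N ≡ N' (r)} e_N e_N' ≤ D² |E| + D |E|² τ` (for `N ≠ N'` there are at
most `τ` numbers `r ∣ N - N'`, each has weight `r ≤ D`). -/
def StMinS : Prop := ∃ C : ℝ, 0 < C ∧ ∀ ω : ℝ → ℝ, IsB ω → ∀ (x D R τ : ℝ) (ξ : ℕ → ℝ)
  (E : Finset ℕ) (e : ℕ → ℝ), IsXi D ξ → 1 ≤ x → 1 ≤ R → 1 ≤ D → 0 ≤ τ → (∀ N ∈ E, |e N| ≤ 1) →
  (∀ N ∈ E, ∀ M ∈ E, N < M → ((M - N).divisors.card : ℝ) ≤ τ) →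
  (∑ N ∈ E, e N * ∑ r ∈ (Icc 1 ⌊D⌋₊).filter (fun r : ℕ => R < r), gg D ξ r * Sr ω x N r) ^ 2 ≤
    C * (D ^ 2 * E.card + D * (E.card : ℝ) ^ 2 * τ) * (1 + Real.log D) ^ 3 * (x / R ^ 2 + 1) *
      (x * (1 + Real.log x) ^ 2)

/-- T2 (from `StMinS`, `AB.StDB`). Let `E` be the set of the integers `N ∈ [Y, 2Y]` for which the inequality fails,
`e_N` the sign of the sum. `StMinS` with `R = x^θ`, `θ = 1/2 - δ'` (as in `PT.M_L7`), `τ = C Y^ε'`: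
`|E|² Y/(log Y)^(2A) ≤ C' (Y^(2 lev) |E| + Y^(lev + ε') |E|²) Y^(1/2 + δ') (log Y)^5`. For `δ' + ε' < 1/2 - lev` the
second term is at most half of the left-hand side, so `|E| ≤ C'' Y^(2 lev - 1/2 + δ') (log Y)^(2A+5) ≤ Y^η`. -/
def StExc : Prop := ∀ ω : ℝ → ℝ, IsB ω → ∀ (a lev η : ℝ), 0 < a → 0 < lev → Sp lev η →
  2 * lev - 1 / 2 < η → ∃ θ : ℝ, 0 < θ ∧ θ < 1 / 2 ∧ ∀ A : ℕ, ∃ Y₀ : ℝ, ∀ Y : ℝ, Y₀ ≤ Y →
  ∀ ξ : ℕ → ℝ, IsXi (Y ^ lev) ξ → ∃ E : Finset ℕ, (E.card : ℝ) ≤ Y ^ η ∧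
  ∀ N : ℕ, Y ≤ N → (N : ℝ) ≤ 2 * Y → N ∉ E →
  |∑ r ∈ (Icc 1 ⌊Y ^ lev⌋₊).filter (fun r : ℕ => (a * √Y) ^ θ < r),
      gg (Y ^ lev) ξ r * Sr ω (a * √Y) N r| ≤ √Y / Real.log Y ^ A

/-- T3 (from L1, L2, L3, L4, T2, L8, `GP.StBVc`, `AB.StDB`; the proof of `PT.M_L9`, which uses `η` only through
`StExc`) -/
def StLD : Prop := ∀ ω : ℝ → ℝ, IsB ω → ∀ (a lev η : ℝ), 0 < a → 0 < lev → Sp lev η →
  2 * lev - 1 / 2 < η → ∀ A : ℕ, ∃ Y₀ : ℝ, ∀ Y : ℝ, Y₀ ≤ Y →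
  ∀ ξ : ℕ → ℝ, IsXi (Y ^ lev) ξ → ∃ E : Finset ℕ, (E.card : ℝ) ≤ Y ^ η ∧
  ∀ N : ℕ, Y ≤ N → (N : ℝ) ≤ 2 * Y → N ∉ E →
  |∑ n ∈ II (a * √Y), wn ω (a * √Y) n * ∑ d ∈ (N - n).divisors, ξ d -
    Th ω (a * √Y) * MN N (Y ^ lev) ξ| ≤ √Y / Real.log Y ^ A

/-- T4 (the proof of `PT.M_P1`) -/
def StLow : Prop := ∀ s c : ℝ, VL s c → ∀ ω : ℝ → ℝ, IsB ω → 0 < JJ ω → ∀ (a u lev η : ℝ), 0 < a →
  0 < u → 0 < s → u * s ≤ lev → Sp lev η → 2 * lev - 1 / 2 < η → ∀ ε : ℝ, 0 < ε →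
  ∃ Y₀ : ℝ, ∀ Y : ℝ, Y₀ ≤ Y → ∃ E : Finset ℕ, (E.card : ℝ) ≤ Y ^ η ∧
  ∀ N : ℕ, Even N → Y ≤ N → (N : ℝ) ≤ 2 * Y → N ∉ E →
  (c - ε) * VV N (Y ^ u) * (JJ ω * (a * √Y)) ≤ T0 ω (a * √Y) N (Y ^ u)

/-- T5 (the proof of `PT.M_P2`) -/
def StUp : Prop := ∀ σ c : ℝ, VU σ c → 0 ≤ c → ∀ ω : ℝ → ℝ, IsB ω → 0 < JJ ω →
  ∀ (a u s t lev η : ℝ), 0 < a → 0 < u → u ≤ s → s < t → 0 < σ → t + u * σ ≤ lev → Sp lev η →
  2 * lev - 1 / 2 < η → ∀ ε : ℝ, 0 < ε → ∃ Y₀ : ℝ, ∀ Y : ℝ, Y₀ ≤ Y → ∀ w : ℕ → ℝ,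
  (∀ q ∈ PY Y s t, 0 ≤ w q ∧ w q ≤ 1) → ∃ E : Finset ℕ, (E.card : ℝ) ≤ Y ^ η ∧
  ∀ N : ℕ, Even N → Y ≤ N → (N : ℝ) ≤ 2 * Y → N ∉ E →
  ∑ q ∈ PY Y s t, w q * Tq ω (a * √Y) N (Y ^ u) q ≤
    (c * ∑ q ∈ PY Y s t, w q / ((q : ℝ) - 1) + ε) * (VV N (Y ^ u) * (JJ ω * (a * √Y)))

/-- T6: constants of the sieve. `PT.StTab` for `j ≥ 11`; for `j < 11` `PT.StRecU` with `s = j/32`, `s' = 11/32`, `l = 0`
(`VL (s - 1) 0` holds with the weights `0`). -/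
def StTab : Prop := ∀ e ∈ cells, VU ((e.2.2.1 : ℝ) / 32) ((e.2.2.2 : ℝ) / 10 ^ 8)

/-- T7 (the proof of `PT.M_P4`) -/
def StSec : Prop := ∀ (lv v : ℕ) (cs : List (ℕ × ℕ × ℕ × ℕ)) (s : ℕ), 704 ≤ s → Ch lv v s cs →
  (∀ e ∈ cs, VU ((e.2.2.1 : ℝ) / 32) ((e.2.2.2 : ℝ) / 10 ^ 8)) → ∀ ω : ℝ → ℝ, IsB ω → 0 < JJ ω →
  ∀ a η : ℝ, 0 < a → Sp ((lv : ℝ) / 10 ^ 4) η → 2 * ((lv : ℝ) / 10 ^ 4) - 1 / 2 < η → ∀ ε : ℝ, 0 < ε →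
  ∃ Y₀ : ℝ, ∀ Y : ℝ, Y₀ ≤ Y → ∃ E : Finset ℕ, (E.card : ℝ) ≤ Y ^ η ∧
  ∀ N : ℕ, Even N → Y ≤ N → (N : ℝ) ≤ 2 * Y → N ∉ E →
  ∑ q ∈ PY Y ((s : ℝ) / 10 ^ 4) ((v : ℝ) / 10 ^ 4),
      (1 - Real.log q / ((v : ℝ) / 10 ^ 4 * Real.log Y)) *
        Tq ω (a * √Y) N (Y ^ ((704 : ℝ) / 10000)) q ≤
    ((cs.map (cc v)).sum + ε) * (VV N (Y ^ ((704 : ℝ) / 10000)) * (JJ ω * (a * √Y)))

/-- T8 (the proof of `PT.M_P5`) -/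
def StNum : Prop := Ch 3649 3539 704 cells ∧ (cells.map (cc 3539)).sum ≤ 1130 / 1000

/-- T9 (the proof of `PT.M_P7`) -/
def StRA : Prop := ∀ (r : ℕ) (v lam : ℝ), 704 / 10000 < v → 0 < lam → 1 / lam + 1 / v < r + 1 →
  ∀ ω : ℝ → ℝ, IsB ω → ∀ α β a κ : ℝ, 0 < α → 0 < κ → κ ≤ 1 → a = α * √(1 + κ) → a < β →
  (∀ t, ω t ≠ 0 → 0 < t ∧ t < Real.log (β / a)) → ∃ Y₀ : ℝ, ∀ Y : ℝ, Y₀ ≤ Y → ∀ N : ℕ, Even N →
  Y ≤ N → (N : ℝ) ≤ (1 + κ) * Y →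
  T0 ω (a * √Y) N (Y ^ ((704 : ℝ) / 10000)) -
    lam * ∑ q ∈ PY Y (704 / 10000) v, (1 - Real.log q / (v * Real.log Y)) *
      Tq ω (a * √Y) N (Y ^ ((704 : ℝ) / 10000)) q ≤
    (Good r (1 / 15) α β N).card * Real.log N + Y ^ ((49 : ℝ) / 100)

/-- the theorem on one block -/
def Blk (r : ℕ) (η₀ : ℝ) : Prop := ∀ α β : ℝ, 0 < α → α < β → ∀ η : ℝ, η₀ < η →
  ∃ κ c Y₀ : ℝ, 0 < κ ∧ κ ≤ 1 ∧ 0 < c ∧ ∀ Y : ℝ, Y₀ ≤ Y → ∃ E : Finset ℕ, (E.card : ℝ) ≤ Y ^ η ∧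
  ∀ N : ℕ, Even N → Y ≤ N → (N : ℝ) ≤ (1 + κ) * Y → N ∉ E →
  c * SS N * √N / Real.log N ^ 2 ≤ (Good r (1 / 15) α β N).card

/-- T10 (the proof of `PT.M_P8`): `lev = 3649/10^4`, `VL (157/32) (9961/10000)` (`0.0704 * 157/32 = 0.3454 ≤ 0.3649`),
`v = 3539/10^4`, `lam = 852/1000`: `0.9961 - 0.852 * 1.13 > 0.03`. -/
def StBlk : Prop := Blk 3 (2298 / 10000)

/-- T11 (the proof of `PT.M_P9`, with the blocks from `X^η'`, `η' = (η + η₀)/2`, instead of `√X`) -/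
def StCov : Prop := ∀ (r : ℕ) (η₀ : ℝ), 0 ≤ η₀ → Blk r η₀ → ∀ α β : ℝ, 0 < α → α < β →
  ∀ η : ℝ, η₀ < η → ∃ c : ℝ, 0 < c ∧ ∃ X₀ : ℕ, ∀ X : ℕ, X₀ ≤ X →
  ((Bad r (1 / 15) α β c X).card : ℝ) ≤ (X : ℝ) ^ η

/-- the theorem -/
def StMT : Prop := ∀ α β : ℝ, 0 < α → α < β →
  ∃ c : ℝ, 0 < c ∧ ∃ X₀ : ℕ, ∀ X : ℕ, X₀ ≤ X →
    ((Bad 3 (1 / 15) α β c X).card : ℝ) ≤ (X : ℝ) ^ ((23 : ℝ) / 100)

theorem hMT (h1 : StBlk) (h2 : StCov) : StMT := fun α β h3 h4 =>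
  h2 3 _ (by norm_num) h1 α β h3 h4 _ (by norm_num)

end Pool.Agent.Helper60.PT3
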